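import Pool.Agent.helper22.GS.Basic

/-!
# Project gs (MP_561ff4_al): further definitions
-/

set_option autoImplicit false

namespace Pool.Agent.GS

open Module

noncomputable section

section Geo

variable {F V : Type} [Field F] [AddCommGroup V] [Module F V]

/-- `y` is not a scalar. -/
def NSc (F : Type) {V : Type} [Field F] [AddCommGroup V] [Module F V] (y : Equiv.Perm V) : Prop :=
  ∀ c : F, ∃ v, y v ≠ c • v

/-- Blocks: all products of two commuting transvections with the right discriminant are generated by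
two conjugates of `y`. -/
def Blk (B : LinearMap.BilinForm F V) (y : Equiv.Perm V) (ν : F) : Prop :=
  ∀ (x x' : V) (s s' : F), LinearIndependent F ![x, x'] → B x x' = 0 → s ≠ 0 → s' ≠ 0 →
    IsSquare (-(ν * s * s')) → Gen B y 2 (tv B x s * tv B x' s')

/-- There is a nondegenerate plane `P = ⟨v, w⟩` with `y P ⊥ P`. -/
def Pln (B : LinearMap.BilinForm F V) (y : Equiv.Perm V) : Prop :=
  ∃ v w : V, B v w ≠ 0 ∧ B (y v) v = 0 ∧ B (y w) w = 0 ∧ B (y v) w = 0 ∧ B v (y w) = 0

/-- Three hyperbolic pairs fixed by a multiple of `y`. -/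
def Trip (B : LinearMap.BilinForm F V) (y : Equiv.Perm V) : Prop :=
  ∃ (lam μ : F) (e f : Fin 3 → V), lam ≠ 0 ∧ μ ≠ 0 ∧
    (∀ i, lam • y (e i) = e i ∧ lam • y (f i) = f i) ∧
    ∀ i j, B (e i) (e j) = 0 ∧ B (f i) (f j) = 0 ∧ B (e i) (f j) = if i = j then μ else 0

/-- Lists of pairs of vectors and of scalars as in `Blk`. -/
def PL (B : LinearMap.BilinForm F V) (τ : F) (L : List ((V × V) × (F × F))) : Prop :=
  ∀ t ∈ L, LinearIndependent F ![t.1.1, t.1.2] ∧ B t.1.1 t.1.2 = 0 ∧ t.2.1 ≠ 0 ∧ t.2.2 ≠ 0 ∧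
    IsSquare (-(τ * t.2.1 * t.2.2))

/-- The product of the transvections of a list of pairs. -/
def pr (B : LinearMap.BilinForm F V) (L : List ((V × V) × (F × F))) : Equiv.Perm V :=
  (L.map fun t => tv B t.1.1 t.2.1 * tv B t.1.2 t.2.2).prod

/-- symmetric nondegenerate bilinear form -/
structure Sym (b : LinearMap.BilinForm F V) : Prop where
  symm : ∀ x y, b x y = b y x
  nd : ∀ x, (∀ y, b x y = 0) → x = 0

/-- Gram determinant -/
def dt {ι : Type} [Fintype ι] [DecidableEq ι] (b : LinearMap.BilinForm F V) (β : ι → V) : F :=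
  (Matrix.of fun i j => b (β i) (β j)).det

/-- `β` is orthogonal for `b` with the norms `c`. -/
def Orth {ι : Type} [DecidableEq ι] (b : LinearMap.BilinForm F V) (β : ι → V) (c : ι → F) : Prop :=
  ∀ i j, b (β i) (β j) = if i = j then c i else 0

end Geo

section KS

variable (F K : Type) [Field F] [Field K] [Algebra F K]

/-- the form `(x, y) ↦ tr(α⁻¹ x y)` on `K` -/
def bf (α : K) : LinearMap.BilinForm F K :=
  LinearMap.mk₂ F (fun x y => Algebra.trace F K (α⁻¹ * x * y))
    (fun x x' y => by rw [mul_add, add_mul, map_add])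
    (fun c x y => by rw [mul_smul_comm, smul_mul_assoc, map_smul])
    (fun x y y' => by rw [mul_add, map_add])
    (fun c x y => by rw [mul_smul_comm, map_smul])

/-- the form `tr(a d - b c)` on `K × K` -/
def B0 : LinearMap.BilinForm F (K × K) :=
  LinearMap.mk₂ F (fun x y => Algebra.trace F K (x.1 * y.2 - x.2 * y.1))
    (fun x x' y => by
      rw [← map_add]; congr 1; simp only [Prod.fst_add, Prod.snd_add]; ring)
    (fun c x y => by
      rw [← map_smul]; congr 1
      simp only [Prod.smul_fst, Prod.smul_snd, smul_mul_assoc, smul_sub])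
    (fun x y y' => by
      rw [← map_add]; congr 1; simp only [Prod.fst_add, Prod.snd_add]; ring)
    (fun c x y => by
      rw [← map_smul]; congr 1
      simp only [Prod.smul_fst, Prod.smul_snd, mul_smul_comm, smul_sub])

theorem bf_apply (α x y : K) : bf F K α x y = Algebra.trace F K (α⁻¹ * x * y) := rfl

theorem B0_apply (x y : K × K) : B0 F K x y = Algebra.trace F K (x.1 * y.2 - x.2 * y.1) := rfl

/-- `K` has degree `m` over `F`, and matrices of determinant one and trace `2 + σ` over `K` have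
projective order divisible by `r`. -/
structure HD (r m : ℕ) (σ : K) : Prop where
  fin : Finite K
  rk : finrank F K = m
  ne : σ ≠ 0
  ord : ∀ M : Matrix (Fin 2) (Fin 2) K, M.det = 1 → M.trace = 2 + σ →
    ∀ (j : ℕ) (c : K), M ^ j = c • (1 : Matrix (Fin 2) (Fin 2) K) → r ∣ j

end KS

/-- Norms `δ, 1, .., 1, -τ, .., -τ`. -/
def nrm {F : Type} [Field F] (τ δ : F) {k : ℕ} : Unit ⊕ (Fin k ⊕ Fin k) → F
  | .inl _ => δ
  | .inr (.inl _) => 1
  | .inr (.inr _) => -τ

/-- Norms `1, .., 1, -τ, .., -τ`. -/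
def nrm' {F : Type} [Field F] (τ : F) {k : ℕ} : Fin k ⊕ Fin k → F
  | .inl _ => 1
  | .inr _ => -τ

/-- `m ≥ 1` and `r ∣ q ^ (2 m) - 1`. -/
structure Dv (q r m : ℕ) : Prop where
  pos : 1 ≤ m
  dvd : r ∣ q ^ (2 * m) - 1

/-! ### The projective symplectic group -/

/-- `PSp(2n, F)` -/
abbrev PSp (n : ℕ) (F : Type) [Field F] : Type :=
  Matrix.symplecticGroup (Fin n) F ⧸ Subgroup.center (Matrix.symplecticGroup (Fin n) F)

/-- The form `B(u,v) = uᵀ J v` on `F^(2n)`. -/
def BJ (n : ℕ) (F : Type) [Field F] : LinearMap.BilinForm F (Fin n ⊕ Fin n → F) :=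
  Matrix.toBilin' (Matrix.J (Fin n) F)

/-- The automorphism `x` of `PSp(2n, F)` is induced by a semisimilarity of `F^(2n)`:
`x (± g) = ± A ψ(g) A⁻¹` with `A J Aᵀ = ν J` and a field automorphism `ψ`. -/
def IsPGammaSp (n : ℕ) (F : Type) [Field F] (x : MulAut (PSp n F)) : Prop :=
  ∃ (A : (Matrix (Fin n ⊕ Fin n) (Fin n ⊕ Fin n) F)ˣ) (ψ : F ≃+* F) (ν : F),
    (A : Matrix (Fin n ⊕ Fin n) (Fin n ⊕ Fin n) F) * Matrix.J (Fin n) F *
      (A : Matrix (Fin n ⊕ Fin n) (Fin n ⊕ Fin n) F).transpose = ν • Matrix.J (Fin n) F ∧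
    ∀ g h : Matrix.symplecticGroup (Fin n) F,
      (h : Matrix (Fin n ⊕ Fin n) (Fin n ⊕ Fin n) F) =
        A * (g : Matrix (Fin n ⊕ Fin n) (Fin n ⊕ Fin n) F).map ψ *
          (A⁻¹ : (Matrix (Fin n ⊕ Fin n) (Fin n ⊕ Fin n) F)ˣ) →
      x (QuotientGroup.mk g) = QuotientGroup.mk h

/-- Some `k` conjugates of the automorphism `x` of the group `S` under inner automorphisms generate a
group of order divisible by `r`. -/
def GenDvd {S : Type} [Group S] (r k : ℕ) (x : MulAut S) : Prop :=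
  ∃ g : Fin k → S, r ∣ Nat.card (Subgroup.closure
    (Set.range fun i => MulAut.conj (g i) * x * (MulAut.conj (g i))⁻¹))

/-- The numbers `k ≥ 1` such that some `k` conjugates of `x` in the group `⟨Inn S, x⟩` generate a
group of order divisible by `r`. Its least element is `β_{r,S}(x)`. -/
def CSet {S : Type} [Group S] (r : ℕ) (x : MulAut S) : Set ℕ :=
  {k | 1 ≤ k ∧ ∃ g : Fin k → MulAut S,
    (∀ i, g i ∈ Subgroup.closure (insert x (Set.range (MulAut.conj : S →* MulAut S)))) ∧
    r ∣ Nat.card (Subgroup.closure (Set.range fun i => g i * x * (g i)⁻¹))}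

end

end Pool.Agent.GS
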