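import Mathlib

/-!
# Project gs (MP_561ff4_al): conjugate generation in symplectic groups. Definitions and basic lemmas.

The ambient group is `Equiv.Perm V`.
-/

set_option autoImplicit false

namespace Pool.Agent.GS

open scoped BigOperators

noncomputable section

variable {F V : Type} [Field F] [AddCommGroup V] [Module F V]

theorem pinv {α : Type} (y : Equiv.Perm α) (x : α) : y (y⁻¹ x) = x := y.apply_symm_apply x

theorem invp {α : Type} (y : Equiv.Perm α) (x : α) : y⁻¹ (y x) = x := y.symm_apply_apply x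

/-- alternating nondegenerate form -/
structure Alt (B : LinearMap.BilinForm F V) : Prop where
  alt : ∀ v, B v v = 0
  nd : ∀ u, (∀ v, B u v = 0) → u = 0

theorem Alt.neg {B : LinearMap.BilinForm F V} (h : Alt B) (u v : V) : B u v = -B v u := by
  have h1 := h.alt (u + v)
  rw [map_add, map_add, LinearMap.add_apply, LinearMap.add_apply, h.alt, h.alt, zero_add,
    add_zero] at h1
  exact eq_neg_of_add_eq_zero_right h1

/-- `y` is a semisimilarity with companion automorphism `ψ` and multiplier `ν`. -/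
structure Sim (B : LinearMap.BilinForm F V) (y : Equiv.Perm V) (ψ : F ≃+* F) (ν : F) : Prop where
  ne : ν ≠ 0
  add : ∀ u v, y (u + v) = y u + y v
  smul : ∀ (c : F) (v : V), y (c • v) = ψ c • y v
  form : ∀ u v, B (y u) (y v) = ν * ψ (B u v)

/-- `g` is linear. -/
def Lin (F : Type) {V : Type} [Field F] [AddCommGroup V] [Module F V] (g : Equiv.Perm V) : Prop :=
  (∀ u v, g (u + v) = g u + g v) ∧ ∀ (c : F) (v : V), g (c • v) = c • g v

/-- The symplectic group, as a subgroup of the permutations of `V`. -/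
def SpG (B : LinearMap.BilinForm F V) : Subgroup (Equiv.Perm V) where
  carrier := {g | Lin F g ∧ ∀ u v, B (g u) (g v) = B u v}
  one_mem' := ⟨⟨fun _ _ => rfl, fun _ _ => rfl⟩, fun _ _ => rfl⟩
  mul_mem' := by
    intro a b ha hb
    refine ⟨⟨fun u v => ?_, fun c v => ?_⟩, fun u v => ?_⟩
    · simp only [Equiv.Perm.mul_apply, hb.1.1, ha.1.1]
    · simp only [Equiv.Perm.mul_apply, hb.1.2, ha.1.2]
    · simp only [Equiv.Perm.mul_apply, ha.2, hb.2]
  inv_mem' := by
    intro a ha
    refine ⟨⟨fun u v => ?_, fun c v => ?_⟩, fun u v => ?_⟩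
    · apply a.injective
      rw [ha.1.1, pinv, pinv, pinv]
    · apply a.injective
      rw [ha.1.2, pinv, pinv]
    · rw [← ha.2, pinv, pinv]

theorem mem_SpG {B : LinearMap.BilinForm F V} {g : Equiv.Perm V} :
    g ∈ SpG B ↔ Lin F g ∧ ∀ u v, B (g u) (g v) = B u v := Iff.rfl

/-- scalars -/
def sc (V : Type) [AddCommGroup V] [Module F V] (c : Fˣ) : Equiv.Perm V :=
  MulAction.toPermHom Fˣ V c

@[simp] theorem sc_apply (c : Fˣ) (v : V) : sc V c v = (c : F) • v := rfl

theorem sc_mul (c d : Fˣ) : sc V (c * d) = sc V c * sc V d := map_mul (MulAction.toPermHom Fˣ V) c d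

theorem sc_one : sc V (1 : Fˣ) = 1 := map_one (MulAction.toPermHom Fˣ V)

theorem sc_inv (c : Fˣ) : sc V c⁻¹ = (sc V c)⁻¹ := map_inv (MulAction.toPermHom Fˣ V) c

/-- A linear map commutes with scalars. -/
theorem sc_comm {g : Equiv.Perm V} (hg : Lin F g) (c : Fˣ) : g * sc V c = sc V c * g := by
  ext v
  simp only [Equiv.Perm.mul_apply, sc_apply, hg.2]

theorem Lin.mul {g h : Equiv.Perm V} (hg : Lin F g) (hh : Lin F h) : Lin F (g * h) :=
  ⟨fun u v => by simp only [Equiv.Perm.mul_apply, hh.1, hg.1],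
    fun c v => by simp only [Equiv.Perm.mul_apply, hh.2, hg.2]⟩

open Classical in
/-- The transvection `x ↦ x + a B(x,v) v`. -/
def tv (B : LinearMap.BilinForm F V) (v : V) (a : F) : Equiv.Perm V :=
  if h : B v v = 0 then
    { toFun := fun x => x + (a * B x v) • v
      invFun := fun x => x - (a * B x v) • v
      left_inv := by
        intro x
        simp only [map_add, LinearMap.add_apply, map_smul, LinearMap.smul_apply, h, smul_zero,
          add_zero, add_sub_cancel_right]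
      right_inv := by
        intro x
        simp only [map_sub, LinearMap.sub_apply, map_smul, LinearMap.smul_apply, h, smul_zero,
          sub_zero, sub_add_cancel] }
  else 1

theorem tv_apply {B : LinearMap.BilinForm F V} (hB : Alt B) (v : V) (a : F) (x : V) :
    tv B v a x = x + (a * B x v) • v := by
  unfold tv
  rw [dif_pos (hB.alt v)]
  rfl

theorem tv_mem {B : LinearMap.BilinForm F V} (hB : Alt B) (v : V) (a : F) : tv B v a ∈ SpG B := by
  refine ⟨⟨fun x y => ?_, fun c x => ?_⟩, fun x y => ?_⟩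
  · rw [tv_apply hB, tv_apply hB, tv_apply hB, map_add, LinearMap.add_apply, mul_add, add_smul]
    abel
  · rw [tv_apply hB, tv_apply hB, map_smul, LinearMap.smul_apply, smul_add, smul_smul, smul_eq_mul]
    congr 2
    ring
  · rw [tv_apply hB, tv_apply hB]
    simp only [map_add, LinearMap.add_apply, map_smul, LinearMap.smul_apply, smul_eq_mul, hB.alt,
      mul_zero, add_zero]
    rw [hB.neg v y]
    ring

theorem tv_lin {B : LinearMap.BilinForm F V} (hB : Alt B) (v : V) (a : F) : Lin F (tv B v a) :=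
  (tv_mem hB v a).1

theorem tv_zero {B : LinearMap.BilinForm F V} (hB : Alt B) (v : V) : tv B v 0 = 1 := by
  ext x
  rw [tv_apply hB, zero_mul, zero_smul, add_zero]
  rfl

theorem tv_add {B : LinearMap.BilinForm F V} (hB : Alt B) (v : V) (a b : F) :
    tv B v a * tv B v b = tv B v (a + b) := by
  ext x
  rw [Equiv.Perm.mul_apply, tv_apply hB, tv_apply hB, tv_apply hB]
  simp only [map_add, LinearMap.add_apply, map_smul, LinearMap.smul_apply, smul_eq_mul, hB.alt,
    mul_zero, add_zero, add_mul, add_smul]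
  abel

theorem tv_inv {B : LinearMap.BilinForm F V} (hB : Alt B) (v : V) (a : F) :
    (tv B v a)⁻¹ = tv B v (-a) := by
  rw [inv_eq_iff_mul_eq_one, tv_add hB, add_neg_cancel, tv_zero hB]

theorem tv_pow {B : LinearMap.BilinForm F V} (hB : Alt B) (v : V) (a : F) (n : ℕ) :
    tv B v a ^ n = tv B v (n * a) := by
  induction n with
  | zero => rw [pow_zero, Nat.cast_zero, zero_mul, tv_zero hB]
  | succ n ih => rw [pow_succ, ih, tv_add hB, Nat.cast_succ, add_mul, one_mul]

theorem tv_smul {B : LinearMap.BilinForm F V} (hB : Alt B) (v : V) (c a : F) :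
    tv B (c • v) a = tv B v (c ^ 2 * a) := by
  ext x
  rw [tv_apply hB, tv_apply hB, map_smul, smul_eq_mul, smul_smul]
  congr 2
  ring

theorem tv_comm {B : LinearMap.BilinForm F V} (hB : Alt B) {v w : V} (h : B v w = 0) (a b : F) :
    tv B v a * tv B w b = tv B w b * tv B v a := by
  have h' : B w v = 0 := by rw [hB.neg, h, neg_zero]
  ext x
  rw [Equiv.Perm.mul_apply, Equiv.Perm.mul_apply, tv_apply hB, tv_apply hB, tv_apply hB,
    tv_apply hB]
  simp only [map_add, LinearMap.add_apply, map_smul, LinearMap.smul_apply, smul_eq_mul, h, h',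
    mul_zero, add_zero]
  abel

/-- Conjugation of a transvection by a semisimilarity. -/
theorem tv_conj {B : LinearMap.BilinForm F V} (hB : Alt B) {y : Equiv.Perm V} {ψ : F ≃+* F} {ν : F}
    (hy : Sim B y ψ ν) (v : V) (a : F) : y * tv B v a * y⁻¹ = tv B (y v) (ν⁻¹ * ψ a) := by
  ext x
  rw [Equiv.Perm.mul_apply, Equiv.Perm.mul_apply, tv_apply hB, tv_apply hB, hy.add, hy.smul,
    pinv]
  have h1 : B x (y v) = ν * ψ (B (y⁻¹ x) v) := by rw [← hy.form, pinv]
  rw [h1, map_mul]
  congr 2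
  field_simp [hy.ne]

theorem tv_conj_sp {B : LinearMap.BilinForm F V} (hB : Alt B) {g : Equiv.Perm V} (hg : g ∈ SpG B)
    (v : V) (a : F) : g * tv B v a * g⁻¹ = tv B (g v) a := by
  have h : Sim B g (RingEquiv.refl F) 1 :=
    ⟨one_ne_zero, hg.1.1, fun c v => hg.1.2 c v, fun u v => by rw [hg.2, one_mul]; rfl⟩
  rw [tv_conj hB h, inv_one, one_mul]
  rfl

theorem Sim.inv_add {B : LinearMap.BilinForm F V} {y : Equiv.Perm V} {ψ : F ≃+* F} {ν : F}
    (hy : Sim B y ψ ν) (u v : V) : y⁻¹ (u + v) = y⁻¹ u + y⁻¹ v := by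
  apply y.injective
  rw [hy.add, pinv, pinv, pinv]

theorem Sim.inv_smul {B : LinearMap.BilinForm F V} {y : Equiv.Perm V} {ψ : F ≃+* F} {ν : F}
    (hy : Sim B y ψ ν) (c : F) (v : V) : y⁻¹ (c • v) = ψ.symm c • y⁻¹ v := by
  apply y.injective
  rw [pinv, hy.smul, pinv, RingEquiv.apply_symm_apply]

/-- Semisimilarities normalise the symplectic group. -/
theorem Sim.conj_mem {B : LinearMap.BilinForm F V} {y : Equiv.Perm V} {ψ : F ≃+* F} {ν : F}
    (hy : Sim B y ψ ν) {g : Equiv.Perm V} (hg : g ∈ SpG B) : y * g * y⁻¹ ∈ SpG B := by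
  refine ⟨⟨fun u v => ?_, fun c v => ?_⟩, fun u v => ?_⟩
  · simp only [Equiv.Perm.mul_apply, hy.inv_add, hg.1.1, hy.add]
  · simp only [Equiv.Perm.mul_apply, hy.inv_smul, hg.1.2, hy.smul, RingEquiv.apply_symm_apply]
  · simp only [Equiv.Perm.mul_apply]
    rw [hy.form, hg.2, ← hy.form, pinv, pinv]

/-- `z` is, up to a scalar, in the group generated by `k` conjugates of `y` under the symplectic
group. -/
def Gen (B : LinearMap.BilinForm F V) (y : Equiv.Perm V) (k : ℕ) (z : Equiv.Perm V) : Prop :=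
  ∃ g : Fin k → Equiv.Perm V, (∀ i, g i ∈ SpG B) ∧ ∃ c : Fˣ,
    sc V c * z ∈ Subgroup.closure (Set.range fun i => g i * y * (g i)⁻¹)

/-- The only scalar powers of `z` are the powers with exponent divisible by `r`. -/
def NS (F : Type) {V : Type} [Field F] [AddCommGroup V] [Module F V] (r : ℕ) (z : Equiv.Perm V) :
    Prop := ∀ (j : ℕ) (c : F), (∀ v, (z ^ j) v = c • v) → r ∣ j

theorem Gen.mul {B : LinearMap.BilinForm F V} {y : Equiv.Perm V} {k l : ℕ} {z w : Equiv.Perm V}
    (hz : Gen B y k z) (hw : Gen B y l w) (hzl : Lin F z) :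
    Gen B y (k + l) (z * w) := by
  obtain ⟨g, hg, c, hc⟩ := hz
  obtain ⟨g', hg', c', hc'⟩ := hw
  refine ⟨Fin.append g g', ?_, c * c', ?_⟩
  · intro i
    refine Fin.addCases (fun i => ?_) (fun i => ?_) i
    · rw [Fin.append_left]; exact hg i
    · rw [Fin.append_right]; exact hg' i
  · have e : sc V (c * c') * (z * w) = (sc V c * z) * (sc V c' * w) := by
      rw [sc_mul, mul_assoc, mul_assoc, ← mul_assoc (sc V c') z w, ← sc_comm hzl, mul_assoc]
    rw [e]
    refine Subgroup.mul_mem _ (Subgroup.closure_mono ?_ hc) (Subgroup.closure_mono ?_ hc')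
    · rintro _ ⟨i, rfl⟩
      exact ⟨Fin.castAdd l i, by simp only [Fin.append_left]⟩
    · rintro _ ⟨i, rfl⟩
      exact ⟨Fin.natAdd k i, by simp only [Fin.append_right]⟩

theorem Gen.mono {B : LinearMap.BilinForm F V} {y : Equiv.Perm V} {k l : ℕ} {z : Equiv.Perm V}
    (hz : Gen B y k z) (h : k ≤ l) : Gen B y l z := by
  obtain ⟨g, hg, c, hc⟩ := hz
  refine ⟨fun i => if hi : (i : ℕ) < k then g ⟨i, hi⟩ else 1, ?_, c, Subgroup.closure_mono ?_ hc⟩
  · intro i
    by_cases hi : (i : ℕ) < k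
    · simp only [hi, dif_pos]; exact hg _
    · simp only [hi, dif_neg, not_false_iff]; exact (SpG B).one_mem
  · rintro _ ⟨i, rfl⟩
    refine ⟨⟨i, lt_of_lt_of_le i.2 h⟩, ?_⟩
    simp only [i.2, dif_pos]

theorem Gen.one {B : LinearMap.BilinForm F V} {y : Equiv.Perm V} (k : ℕ) : Gen B y k 1 :=
  ⟨fun _ => 1, fun _ => (SpG B).one_mem, 1, by rw [sc_one, one_mul]; exact Subgroup.one_mem _⟩

/-- Conjugating by the symplectic group. -/
theorem Gen.conj {B : LinearMap.BilinForm F V} {y : Equiv.Perm V} {k : ℕ} {z : Equiv.Perm V}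
    (hz : Gen B y k z) {h : Equiv.Perm V} (hh : h ∈ SpG B) : Gen B y k (h * z * h⁻¹) := by
  obtain ⟨g, hg, c, hc⟩ := hz
  refine ⟨fun i => h * g i, fun i => (SpG B).mul_mem hh (hg i), c, ?_⟩
  have e : sc V c * (h * z * h⁻¹) = MulAut.conj h (sc V c * z) := by
    rw [MulAut.conj_apply, ← mul_assoc, ← mul_assoc, ← mul_assoc, sc_comm hh.1]
  rw [e]
  have h1 : MulAut.conj h (sc V c * z) ∈
      (Subgroup.closure (Set.range fun i => g i * y * (g i)⁻¹)).map (MulAut.conj h).toMonoidHom :=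
    Subgroup.mem_map_of_mem (MulAut.conj h).toMonoidHom hc
  rw [MonoidHom.map_closure] at h1
  refine Subgroup.closure_mono ?_ h1
  rintro _ ⟨_, ⟨i, rfl⟩, rfl⟩
  refine ⟨i, ?_⟩
  change h * g i * y * (h * g i)⁻¹ = h * (g i * y * (g i)⁻¹) * h⁻¹
  group

/-- The commutator of `y` and `t` is generated by two conjugates of `y`. -/
theorem Gen.comm {B : LinearMap.BilinForm F V} {y t : Equiv.Perm V} (ht : t ∈ SpG B) :
    Gen B y 2 (y * t * y⁻¹ * t⁻¹) := by
  refine ⟨![1, t], ?_, 1, ?_⟩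
  · intro i
    fin_cases i
    · exact (SpG B).one_mem
    · exact ht
  · rw [sc_one, one_mul]
    have e : y * t * y⁻¹ * t⁻¹ = (1 * y * 1⁻¹) * (t * y * t⁻¹)⁻¹ := by group
    rw [e]
    have h0 : (1 * y * 1⁻¹) ∈ Set.range fun i : Fin 2 =>
        (![1, t] : Fin 2 → Equiv.Perm V) i * y * ((![1, t] : Fin 2 → Equiv.Perm V) i)⁻¹ := ⟨0, rfl⟩
    have h1 : (t * y * t⁻¹) ∈ Set.range fun i : Fin 2 =>
        (![1, t] : Fin 2 → Equiv.Perm V) i * y * ((![1, t] : Fin 2 → Equiv.Perm V) i)⁻¹ := ⟨1, rfl⟩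
    exact Subgroup.mul_mem _ (Subgroup.subset_closure h0)
      (Subgroup.inv_mem _ (Subgroup.subset_closure h1))

/-- Powers of `y`. -/
theorem Gen.of_pow {B : LinearMap.BilinForm F V} {y : Equiv.Perm V} {k : ℕ} {z : Equiv.Perm V}
    (j : ℕ) (hz : Gen B (y ^ j) k z) : Gen B y k z := by
  obtain ⟨g, hg, c, hc⟩ := hz
  refine ⟨g, hg, c, ?_⟩
  have : Subgroup.closure (Set.range fun i => g i * y ^ j * (g i)⁻¹) ≤
      Subgroup.closure (Set.range fun i => g i * y * (g i)⁻¹) := by
    rw [Subgroup.closure_le]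
    rintro _ ⟨i, rfl⟩
    have : g i * y ^ j * (g i)⁻¹ = (g i * y * (g i)⁻¹) ^ j := by
      rw [conj_pow]
    simp only [this]
    exact Subgroup.pow_mem _ (Subgroup.subset_closure (Set.mem_range_self i)) j
  exact this hc

end

end Pool.Agent.GS
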