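import Pool.Agent.helper22.GS.SpecT

/-! DS3 of project gs. -/

set_option autoImplicit false

namespace Pool.Agent.GS

open Module

noncomputable section

theorem DSX (hDS2 : DS2_stmt) (hDSS : DSS_stmt) : DSX_stmt := by
  intro F V _ _ _ _ B hB n hn hdim y ψ ν hy l hl hψ hψl hyl
  have hspan := hDS2 ψ l hl hψ hψl y hy.add hy.smul hyl
  have hVne : ∃ v : V, v ≠ 0 := by
    by_contra hcon
    push Not at hcon
    have : Subsingleton V := ⟨fun a b => by rw [hcon a, hcon b]⟩
    have h0 : finrank F V = 0 := finrank_zero_of_subsingleton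
    omega
  obtain ⟨v0, hv0⟩ := hVne
  obtain ⟨u, v, hu, hv, huv⟩ : ∃ u v : V, y u = u ∧ y v = v ∧ B u v ≠ 0 := by
    by_contra hcon
    push Not at hcon
    apply hv0
    apply hB.nd
    have key1 : ∀ u ∈ {u | y u = u}, ∀ w, B u w = 0 := by
      intro u hu w
      have hw : w ∈ Submodule.span F {u | y u = u} := by rw [hspan]; trivial
      have hle : Submodule.span F {u | y u = u} ≤ LinearMap.ker (B u) := by
        rw [Submodule.span_le]
        intro x hx
        exact hcon u x hu hx
      exact hle hw
    intro w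
    have h1 : v0 ∈ Submodule.span F {u | y u = u} := by rw [hspan]; trivial
    have hle : Submodule.span F {u | y u = u} ≤ LinearMap.ker (B w) := by
      rw [Submodule.span_le]
      intro x hx
      change B w x = 0
      rw [hB.neg, key1 x hx w, neg_zero]
    have h2 : B w v0 = 0 := hle h1
    rw [hB.neg, h2, neg_zero]
  obtain ⟨μ, hμ⟩ : ∃ μ, B u v = μ := ⟨_, rfl⟩
  have hμ0 : μ ≠ 0 := by rw [← hμ]; exact huv
  have hμν : μ = ν * ψ μ := by
    have := hy.form u v
    rw [hu, hv, hμ] at this
    exact this
  have hstep : ∀ k : ℕ, k ≤ 2 → ∃ e f : Fin k → V, (∀ i, y (e i) = e i ∧ y (f i) = f i) ∧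
      ∀ i j, B (e i) (e j) = 0 ∧ B (f i) (f j) = 0 ∧ B (e i) (f j) = if i = j then μ else 0 := by
    intro k
    induction k with
    | zero =>
      intro _
      exact ⟨Fin.elim0, Fin.elim0, fun i => i.elim0, fun i => i.elim0⟩
    | succ k ih =>
      intro hk
      obtain ⟨e, f, hfix, horth⟩ := ih (by omega)
      obtain ⟨e', f', he', hf', hef, hall⟩ := hDSS B hB y ψ ν hy l hl hψ hψl hyl μ hμ0 hμν k e f
        (by omega) hfix horth
      refine ⟨Fin.cons e' e, Fin.cons f' f, ?_, ?_⟩
      · intro i
        refine Fin.cases ?_ (fun i => ?_) i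
        · simp only [Fin.cons_zero]
          exact ⟨he', hf'⟩
        · simp only [Fin.cons_succ]
          exact hfix i
      · intro i j
        refine Fin.cases ?_ (fun i => ?_) i
        · refine Fin.cases ?_ (fun j => ?_) j
          · simp only [Fin.cons_zero, if_true]
            exact ⟨hB.alt _, hB.alt _, hef⟩
          · simp only [Fin.cons_zero, Fin.cons_succ]
            refine ⟨(hall j).1, (hall j).2.2.2, ?_⟩
            rw [if_neg (Fin.succ_ne_zero j).symm]
            exact (hall j).2.1
        · refine Fin.cases ?_ (fun j => ?_) j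
          · simp only [Fin.cons_zero, Fin.cons_succ]
            refine ⟨by rw [hB.neg, (hall i).1, neg_zero], by rw [hB.neg, (hall i).2.2.2, neg_zero], ?_⟩
            rw [if_neg (Fin.succ_ne_zero i), hB.neg, (hall i).2.2.1, neg_zero]
          · simp only [Fin.cons_succ, Fin.succ_inj]
            exact horth i j
  obtain ⟨e, f, h1, h2⟩ := hstep 2 (le_refl _)
  exact ⟨μ, e, f, hμ0, h1, h2⟩

end

end Pool.Agent.GS
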