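import Pool.Agent.helper22.GS.SpecT

set_option autoImplicit false

namespace Pool.Agent.GS

open Module

theorem F1T_inv {F V : Type} [Field F] [AddCommGroup V] [Module F V]
    {B : LinearMap.BilinForm F V} {y : Equiv.Perm V} {ψ : F ≃+* F} {ν : F}
    (hy : Sim B y ψ ν) : Sim B y⁻¹ ψ.symm (ψ.symm ν)⁻¹ := by
  have hne : ψ.symm ν ≠ 0 := by
    intro h
    apply hy.ne
    have := congrArg ψ h
    rwa [RingEquiv.apply_symm_apply, map_zero] at this
  refine ⟨inv_ne_zero hne, hy.inv_add, hy.inv_smul, fun u v => ?_⟩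
  have h1 := hy.form (y⁻¹ u) (y⁻¹ v)
  rw [pinv, pinv] at h1
  rw [h1, map_mul, RingEquiv.symm_apply_apply, ← mul_assoc, inv_mul_cancel₀ hne, one_mul]

/-- elements of the image of `φ` commuting with the image are scalars -/
theorem F1T_centre (hCN : CN_stmt) (n : ℕ) (F : Type) [Field F] (hn : 2 ≤ n)
    (hB : Alt (BJ n F)) (hfr : finrank F (Fin n ⊕ Fin n → F) = 2 * n)
    (φ : Matrix.symplecticGroup (Fin n) F →* Equiv.Perm (Fin n ⊕ Fin n → F))
    (hr : φ.range = SpG (BJ n F)) (ζ : Matrix.symplecticGroup (Fin n) F)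
    (hζ : ζ ∈ Subgroup.center (Matrix.symplecticGroup (Fin n) F)) :
    ∃ c : F, ∀ v, φ ζ v = c • v := by
  have hmem : ∀ g, φ g ∈ SpG (BJ n F) := by
    intro g
    rw [← hr]
    exact ⟨g, rfl⟩
  refine hCN (BJ n F) hB (by rw [hfr]; omega) (φ ζ) (hmem ζ) ?_
  intro g' hg'
  rw [← hr] at hg'
  obtain ⟨g, rfl⟩ := hg'
  refine ⟨1, fun v => ?_⟩
  have h1 : ζ * g = g * ζ := by
    have := Subgroup.mem_center_iff.1 hζ g
    exact this.symm
  have h2 : φ ζ * φ g * (φ ζ)⁻¹ * (φ g)⁻¹ = 1 := by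
    rw [← map_mul, h1, map_mul]
    group
  rw [h2, one_smul]
  rfl

theorem F1T (hMX : MX_stmt) (hCN : CN_stmt) (hAD : AD_stmt) : F1T_stmt := by
  intro n F _ _ hn x A ψ ν hA hx y hy hyv
  obtain ⟨hB, hfr, φ, hinj, hr, hφ, hex⟩ := hMX n F (by omega)
  have hmem : ∀ g, φ g ∈ SpG (BJ n F) := by
    intro g
    rw [← hr]
    exact ⟨g, rfl⟩
  have hsur : ∀ g' ∈ SpG (BJ n F), ∃ g, φ g = g' := by
    intro g' hg'
    rw [← hr] at hg'
    exact hg'
  have HY : ∀ g : Matrix.symplecticGroup (Fin n) F, ∃ h : Matrix.symplecticGroup (Fin n) F,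
      (h : Matrix (Fin n ⊕ Fin n) (Fin n ⊕ Fin n) F) =
        A * (g : Matrix (Fin n ⊕ Fin n) (Fin n ⊕ Fin n) F).map ψ *
          (A⁻¹ : (Matrix (Fin n ⊕ Fin n) (Fin n ⊕ Fin n) F)ˣ) ∧ φ h = y * φ g * y⁻¹ := by
    obtain ⟨y', _, hy'v, hg⟩ := hex A ψ ν hA
    have e : y' = y := by
      apply Equiv.ext
      intro v
      rw [hy'v, hyv]
    rw [e] at hg
    exact hg
  constructor
  · intro hx1
    by_contra hns
    unfold NSc at hns
    push Not at hns
    obtain ⟨c, hc⟩ := hns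
    apply hx1
    apply MulEquiv.ext
    intro q
    obtain ⟨g, rfl⟩ := QuotientGroup.mk_surjective q
    obtain ⟨h, hh, hφh⟩ := HY g
    have e1 : y * φ g * y⁻¹ = φ g := by
      rw [mul_inv_eq_iff_eq_mul]
      apply Equiv.ext
      intro v
      rw [Equiv.Perm.mul_apply, Equiv.Perm.mul_apply, hc, hc, (hmem g).1.2]
    have e2 : h = g := hinj (by rw [hφh, e1])
    rw [hx g h hh, e2]
    rfl
  · intro r k z hz hgen hNS
    obtain ⟨N, Ad, hN, hAd⟩ := hAD φ hinj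
    have hyN : y ∈ N := by
      apply hN
      · intro g
        obtain ⟨h, _, hφh⟩ := HY g
        exact ⟨h, hφh⟩
      · intro g
        obtain ⟨h, hh⟩ := hsur _ ((F1T_inv hy).conj_mem (hmem g))
        exact ⟨h, by rw [hh, inv_inv]⟩
    have hφN : ∀ γ, φ γ ∈ N := by
      intro γ
      apply hN
      · intro g
        exact ⟨γ * g * γ⁻¹, by rw [map_mul, map_mul, map_inv]⟩
      · intro g
        exact ⟨γ⁻¹ * g * γ, by rw [map_mul, map_mul, map_inv]⟩
    have hscN : ∀ c : Fˣ, sc (Fin n ⊕ Fin n → F) c ∈ N := by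
      intro c
      apply hN
      · intro g
        exact ⟨g, by rw [← sc_comm (hmem g).1 c, mul_inv_cancel_right]⟩
      · intro g
        exact ⟨g, by rw [mul_assoc, sc_comm (hmem g).1 c, inv_mul_cancel_left]⟩
    have hAy : Ad ⟨y, hyN⟩ = x := by
      apply MulEquiv.ext
      intro q
      obtain ⟨g, rfl⟩ := QuotientGroup.mk_surjective q
      obtain ⟨h, hh, hφh⟩ := HY g
      rw [hx g h hh]
      exact hAd ⟨y, hyN⟩ g h hφh
    have hAφ : ∀ γ, Ad ⟨φ γ, hφN γ⟩ = MulAut.conj (QuotientGroup.mk γ) := by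
      intro γ
      apply MulEquiv.ext
      intro q
      obtain ⟨g, rfl⟩ := QuotientGroup.mk_surjective q
      rw [hAd ⟨φ γ, hφN γ⟩ g (γ * g * γ⁻¹) (by rw [map_mul, map_mul, map_inv])]
      rfl
    have hAsc : ∀ c : Fˣ, Ad ⟨sc (Fin n ⊕ Fin n → F) c, hscN c⟩ = 1 := by
      intro c
      apply MulEquiv.ext
      intro q
      obtain ⟨g, rfl⟩ := QuotientGroup.mk_surjective q
      rw [hAd ⟨sc (Fin n ⊕ Fin n → F) c, hscN c⟩ g g
        (by change φ g = sc _ c * φ g * (sc _ c)⁻¹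
            rw [← sc_comm (hmem g).1 c, mul_inv_cancel_right])]
      rfl
    obtain ⟨g, hg, c, hc⟩ := hgen
    choose γ hγ using fun i => hsur (g i) (hg i)
    refine ⟨fun i => QuotientGroup.mk (γ i), ?_⟩
    set H := Subgroup.closure (Set.range fun i =>
      MulAut.conj ((fun i => (QuotientGroup.mk (γ i) : PSp n F)) i) * x *
        (MulAut.conj ((fun i => (QuotientGroup.mk (γ i) : PSp n F)) i))⁻¹) with hH
    have hK : Subgroup.closure (Set.range fun i => g i * y * (g i)⁻¹) ≤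
        (H.comap Ad).map N.subtype := by
      rw [Subgroup.closure_le]
      rintro _ ⟨i, rfl⟩
      have hgi : g i ∈ N := by rw [← hγ i]; exact hφN (γ i)
      refine ⟨⟨g i, hgi⟩ * ⟨y, hyN⟩ * (⟨g i, hgi⟩ : N)⁻¹, ?_, rfl⟩
      change Ad (⟨g i, hgi⟩ * ⟨y, hyN⟩ * (⟨g i, hgi⟩ : N)⁻¹) ∈ H
      have e1 : Ad ⟨g i, hgi⟩ = MulAut.conj (QuotientGroup.mk (γ i)) := by
        rw [← hAφ (γ i)]
        congr 1
        apply Subtype.ext
        exact (hγ i).symm
      rw [map_mul, map_mul, map_inv, e1, hAy]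
      exact Subgroup.subset_closure ⟨i, rfl⟩
    obtain ⟨γz, hγz⟩ := hsur z hz
    have hzN : z ∈ N := by rw [← hγz]; exact hφN γz
    have hzH : Ad ⟨z, hzN⟩ ∈ H := by
      obtain ⟨u, hu, hu2⟩ := hK hc
      have e1 : u = ⟨sc (Fin n ⊕ Fin n → F) c, hscN c⟩ * ⟨z, hzN⟩ := by
        apply Subtype.ext
        exact hu2
      have e2 : Ad u ∈ H := hu
      rw [e1, map_mul, hAsc, one_mul] at e2
      exact e2
    have hpow : (Ad ⟨z, hzN⟩) ^ Nat.card H = 1 := by
      have h1 : (⟨Ad ⟨z, hzN⟩, hzH⟩ : H) ^ Nat.card H = 1 := pow_card_eq_one'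
      have h2 := congrArg (Subtype.val) h1
      exact h2
    have hwN : z ^ Nat.card H ∈ N := Subgroup.pow_mem _ hzN _
    have hwS : z ^ Nat.card H ∈ SpG (BJ n F) := Subgroup.pow_mem _ hz _
    have hAw : Ad ⟨z ^ Nat.card H, hwN⟩ = 1 := by
      rw [← hpow, ← map_pow]
      congr 1
    have hsc : ∃ c : F, ∀ v, (z ^ Nat.card H) v = c • v := by
      refine hCN (BJ n F) hB (by rw [hfr]; omega) _ hwS ?_
      intro g' hg'
      obtain ⟨g0, rfl⟩ := hsur g' hg'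
      obtain ⟨h, hh⟩ := hsur _ ((SpG (BJ n F)).mul_mem ((SpG (BJ n F)).mul_mem hwS (hmem g0))
        ((SpG (BJ n F)).inv_mem hwS))
      have h1 : Ad ⟨z ^ Nat.card H, hwN⟩ (QuotientGroup.mk g0) = QuotientGroup.mk h :=
        hAd ⟨z ^ Nat.card H, hwN⟩ g0 h hh
      rw [hAw] at h1
      have h2 : g0⁻¹ * h ∈ Subgroup.center (Matrix.symplecticGroup (Fin n) F) :=
        QuotientGroup.eq.1 h1
      obtain ⟨c, hc⟩ := F1T_centre hCN n F hn hB hfr φ hr _ h2
      refine ⟨c, fun v => ?_⟩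
      have h3 : g0 * (g0⁻¹ * h) = (g0⁻¹ * h) * g0 := Subgroup.mem_center_iff.1 h2 g0
      rw [mul_inv_cancel_left] at h3
      have e : h * g0⁻¹ = g0⁻¹ * h := by
        rw [mul_inv_eq_iff_eq_mul]
        exact h3
      rw [← hh, ← map_inv, ← map_mul, e]
      exact hc v
    obtain ⟨c, hc⟩ := hsc
    exact hNS (Nat.card H) c hc

end Pool.Agent.GS
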