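import Pool.Agent.helper22.GS.Spec

set_option autoImplicit false

namespace Pool.Agent.GS

open Module

theorem HA (h1 : HA1_stmt) (h2 : HA2_stmt) : HA_stmt := by
  intro F _ _ r m hF hr hr2 hD
  obtain ⟨hm, hdvd⟩ := hD
  have hq : 1 ≤ Nat.card F ^ m := Nat.one_le_pow _ _ Nat.card_pos
  have e : Nat.card F ^ (2 * m) - 1 = (Nat.card F ^ m - 1) * (Nat.card F ^ m + 1) := by
    rw [mul_comm 2 m, pow_mul]
    obtain ⟨t, ht⟩ : ∃ t, Nat.card F ^ m = t + 1 := ⟨Nat.card F ^ m - 1, by omega⟩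
    rw [ht, Nat.add_sub_cancel]
    have : (t + 1) ^ 2 = t * (t + 1 + 1) + 1 := by ring
    omega
  rw [e] at hdvd
  rcases hr.dvd_mul.mp hdvd with h | h
  · exact h2 r m hF hr hr2 hm h
  · exact h1 r m hF hr hr2 hm h

end Pool.Agent.GS
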