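import Pool.Agent.helper22.GS.Spec

set_option autoImplicit false

namespace Pool.Agent.GS

open Module

theorem HA1_hd (hp : HP_stmt) {F K E : Type} [Field F] [Field K] [Field E] [Algebra F K]
    [Algebra K E] (fK : Finite K) (r m : ℕ) (hr : r.Prime) (hr2 : r ≠ 2) (hrk : finrank F K = m)
    (k : E) (hk : k ≠ 0) (a : K) (ha : algebraMap K E a = (k - k⁻¹) ^ 2) (hk2 : k ^ 2 ≠ 1)
    (hord : r ∣ orderOf (k ^ 2)) : HD F K r m a := by
  refine ⟨fK, hrk, ?_, ?_⟩
  · rintro rfl
    rw [map_zero] at ha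
    have h1 : k - k⁻¹ = 0 := pow_eq_zero_iff (two_ne_zero) |>.mp ha.symm
    apply hk2
    have h2 : k = k⁻¹ := sub_eq_zero.mp h1
    calc k ^ 2 = k * k := sq k
      _ = k * k⁻¹ := by rw [← h2]
      _ = 1 := mul_inv_cancel₀ hk
  · refine hp r hr hr2 a (k ^ 2) (pow_ne_zero 2 hk) ?_ hord
    rw [ha]
    field_simp
    ring

theorem HA1 (ef : EF_stmt) (hp : HP_stmt) : HA1_stmt := by
  intro F _ _ r m hF hr hr2 hm hdvd
  obtain ⟨K, E, iK, iE, aFK, aKE, fK, fE, hrk, hcard, ⟨g, hg0, hg⟩, -, hfix⟩ := ef (F := F) m hm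
  have hr0 : 0 < r := hr.pos
  set Q := Nat.card K with hQ
  rw [← hcard] at hdvd
  have : Fintype K := Fintype.ofFinite K
  have hQc : Fintype.card K = Q := by rw [hQ, Nat.card_eq_fintype_card]
  obtain ⟨φ, hφ⟩ : ∃ φ : E →+* E, ∀ x, φ x = x ^ Q := by
    refine ⟨(FiniteField.frobeniusAlgHom K E : E →ₐ[K] E), fun x => ?_⟩
    rw [← hQc]
    rfl
  have hφK : ∀ a : K, φ (algebraMap K E a) = algebraMap K E a := by
    intro a
    rw [hφ, ← map_pow, ← hQc, FiniteField.pow_card]
  have hK2 : ringChar K ≠ 2 := by rwa [← Algebra.ringChar_eq F K]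
  have hE2 : ringChar E ≠ 2 := by rwa [← Algebra.ringChar_eq K E]
  have h2E : (2 : E) ≠ 0 := Ring.two_ne_zero hE2
  have hodd : Q % 2 = 1 := by
    rw [← hQc]
    exact FiniteField.odd_card_of_char_ne_two hK2
  have hQ1 : 1 < Q := by
    rw [← hQc]
    exact Fintype.one_lt_card
  have hsq : Q ^ 2 - 1 = (Q + 1) * (Q - 1) := by
    obtain ⟨t, ht⟩ : ∃ t, Q = t + 1 := ⟨Q - 1, by omega⟩
    rw [ht]
    simp only [Nat.add_sub_cancel]
    have : (t + 1) ^ 2 = (t + 1 + 1) * t + 1 := by ring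
    omega
  have hg' : orderOf g ≠ 0 := by
    rw [hg, hsq]
    exact Nat.mul_ne_zero (by omega) (by omega)
  have hrodd : r % 2 = 1 := by
    rcases hr.eq_two_or_odd with h | h
    · exact absurd h hr2
    · exact h
  constructor
  · -- square
    set κ : E := g ^ ((Q - 1) / 2) with hκ
    have hκ0 : κ ≠ 0 := pow_ne_zero _ hg0
    have hκ2 : κ ^ 2 = g ^ (Q - 1) := by
      rw [hκ, ← pow_mul]
      congr 1
      omega
    have hord : orderOf (κ ^ 2) = Q + 1 := by
      have h1 : Q - 1 = orderOf g / (Q + 1) := by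
        rw [hg, hsq, Nat.mul_div_cancel_left _ (by omega)]
      rw [hκ2, h1]
      exact orderOf_pow_orderOf_div hg' (by rw [hg, hsq]; exact dvd_mul_right _ _)
    have hκ1 : κ ^ 2 ≠ 1 := by
      intro h
      rw [h, orderOf_one] at hord
      omega
    have hneg : κ ^ (Q + 1) = -1 := by
      have h1 : κ ^ (Q + 1) * κ ^ (Q + 1) = 1 := by
        rw [← mul_pow, ← sq, ← hord, pow_orderOf_eq_one]
      rcases mul_self_eq_one_iff.mp h1 with h | h
      · exfalso
        have h2 : orderOf g ∣ ((Q - 1) / 2) * (Q + 1) := by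
          rw [orderOf_dvd_iff_pow_eq_one, pow_mul]
          exact h
        have h3 := Nat.le_of_dvd (Nat.mul_pos (by omega) (by omega)) h2
        rw [hg, hsq] at h3
        have h4 : (Q + 1) * ((Q - 1) / 2) < (Q + 1) * (Q - 1) :=
          Nat.mul_lt_mul_of_pos_left (by omega) (by omega)
        rw [mul_comm ((Q - 1) / 2)] at h3
        omega
      · exact h
    have hφκ : φ κ = -κ⁻¹ := by
      rw [hφ]
      have : κ ^ Q * κ = -1 := by rw [← pow_succ]; exact hneg
      field_simp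
      exact this
    have hs : φ (κ - κ⁻¹) = κ - κ⁻¹ := by
      rw [map_sub, map_inv₀, hφκ, neg_inv, inv_inv]
      rw [← neg_inv]
      ring
    obtain ⟨b, hb⟩ := hfix (κ - κ⁻¹) (by rw [← hφ]; exact hs)
    refine ⟨K, iK, aFK, b ^ 2, HA1_hd hp fK r m hr hr2 hrk κ hκ0 (b ^ 2) ?_ hκ1 ?_, ?_⟩
    · rw [map_pow, hb]
    · rw [hord]
      exact hdvd
    · exact ⟨b, sq b⟩
  · -- nonsquare
    have hrd : r ∣ orderOf g := by
      rw [hg, hsq]
      exact dvd_mul_of_dvd_left hdvd _
    set h : E := g ^ (orderOf g / r) with hh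
    have hord : orderOf h = r := orderOf_pow_orderOf_div hg' hrd
    have hpow : h ^ (Q + 1) = 1 := by
      rw [← orderOf_dvd_iff_pow_eq_one, hord]
      exact hdvd
    have hh0 : h ≠ 0 := pow_ne_zero _ hg0
    set k : E := h ^ ((r + 1) / 2) with hk
    have hk0 : k ≠ 0 := pow_ne_zero _ hh0
    have hk2 : k ^ 2 = h := by
      rw [hk, ← pow_mul]
      have h1 : (r + 1) / 2 * 2 = r + 1 := by omega
      have h3 : h ^ r = 1 := by
        rw [← hord]
        exact pow_orderOf_eq_one h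
      rw [h1, pow_succ, h3, one_mul]
    have hh1 : h ≠ 1 := by
      intro h1
      rw [h1, orderOf_one] at hord
      exact hr.one_lt.ne hord
    have hkQ : k ^ (Q + 1) = 1 := by
      rw [hk, ← pow_mul, mul_comm, pow_mul, hpow, one_pow]
    have hφk : φ k = k⁻¹ := by
      rw [hφ]
      have : k ^ Q * k = 1 := by rw [← pow_succ]; exact hkQ
      exact eq_inv_of_mul_eq_one_left this
    have hs : φ (k - k⁻¹) = -(k - k⁻¹) := by
      rw [map_sub, map_inv₀, hφk, inv_inv]
      ring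
    have hs0 : k - k⁻¹ ≠ 0 := by
      intro h1
      have h2 : k = k⁻¹ := sub_eq_zero.mp h1
      apply hh1
      rw [← hk2]
      calc k ^ 2 = k * k := sq k
        _ = k * k⁻¹ := by rw [← h2]
        _ = 1 := mul_inv_cancel₀ hk0
    obtain ⟨a, ha⟩ := hfix ((k - k⁻¹) ^ 2) (by rw [← hφ, map_pow, hs]; ring)
    refine ⟨K, iK, aFK, a, HA1_hd hp fK r m hr hr2 hrk k hk0 a ha ?_ ?_, ?_⟩
    · rw [hk2]; exact hh1
    · rw [hk2, hord]
    · rintro ⟨b, rfl⟩
      rw [map_mul, ← sq] at ha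
      rcases sq_eq_sq_iff_eq_or_eq_neg.mp ha with h1 | h1
      · have h3 := hφK b
        rw [h1, hs] at h3
        have h4 : 2 * (k - k⁻¹) = 0 := by linear_combination -h3
        rcases mul_eq_zero.mp h4 with h5 | h5
        · exact h2E h5
        · exact hs0 h5
      · have h3 := hφK b
        rw [h1, map_neg, hs] at h3
        have h4 : 2 * (k - k⁻¹) = 0 := by linear_combination h3
        rcases mul_eq_zero.mp h4 with h5 | h5
        · exact h2E h5
        · exact hs0 h5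

end Pool.Agent.GS
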