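import Pool.Agent.helper22.GS.Spec

set_option autoImplicit false

namespace Pool.Agent.GS

open Module

theorem OC (hCM : CM_stmt) (hOB : OB_stmt) : OC_stmt := by
  intro F W ι _ _ _ _ _ _ _ b hch hs β i₀ u0 hu0 ⟨x, hx0, hxx⟩
  obtain ⟨W', hmem, hsym, hfin, -⟩ := hCM b hs β u0 (by rw [hu0]; exact one_ne_zero)
  have hι : finrank F W = Fintype.card ι := finrank_eq_card_basis β
  have hcard : Fintype.card {i // i ≠ i₀} = finrank F W' := by
    have h1 : Fintype.card {i // i ≠ i₀} = Fintype.card ι - 1 := Set.card_ne_eq i₀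
    rw [h1]
    omega
  let γ : Basis {i // i ≠ i₀} F W' :=
    (finBasis F W').reindex (Fintype.equivOfCardEq (by rw [Fintype.card_fin, hcard]))
  obtain ⟨u', hu'⟩ := hOB (b.domRestrict₁₂ W' W') hch hsym γ ⟨⟨x, (hmem x).2 hx0⟩, hxx⟩
  have hu'' : ∀ i j : {i // i ≠ i₀}, b (u' i : W) (u' j : W) = if i = j then 1 else 0 :=
    fun i j => hu' i j
  have hperp : ∀ i : {i // i ≠ i₀}, b u0 (u' i : W) = 0 := fun i => (hmem _).1 (u' i).2
  let v : ι → W := fun i => if h : i = i₀ then u0 else (u' ⟨i, h⟩ : W)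
  have hv0 : v i₀ = u0 := dif_pos rfl
  have hv1 : ∀ i (h : i ≠ i₀), v i = (u' ⟨i, h⟩ : W) := fun i h => dif_neg h
  have horth : ∀ i j, b (v i) (v j) = if i = j then 1 else 0 := by
    intro i j
    by_cases hi : i = i₀
    · subst hi
      by_cases hj : j = i
      · subst hj
        rw [hv0, hu0, if_pos rfl]
      · rw [hv0, hv1 j hj, hperp, if_neg (fun h => hj h.symm)]
    · by_cases hj : j = i₀
      · subst hj
        rw [hv0, hv1 i hi, hs.symm, hperp, if_neg hi]
      · rw [hv1 i hi, hv1 j hj, hu'']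
        by_cases hij : i = j
        · subst hij
          rw [if_pos rfl, if_pos rfl]
        · rw [if_neg hij, if_neg]
          intro h
          exact hij (Subtype.ext_iff.mp h)
  have hli : LinearIndependent F v := by
    rw [Fintype.linearIndependent_iff]
    intro g hg j
    have h1 : b (v j) (∑ i, g i • v i) = g j := by
      rw [map_sum]
      simp only [map_smul, horth, smul_eq_mul, mul_ite, mul_one, mul_zero]
      rw [Finset.sum_ite_eq Finset.univ j]
      simp
    rw [hg, map_zero] at h1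
    exact h1.symm
  have : Nonempty ι := ⟨i₀⟩
  refine ⟨basisOfLinearIndependentOfCardEqFinrank hli hι.symm, ?_, ?_⟩
  · intro i j
    rw [coe_basisOfLinearIndependentOfCardEqFinrank]
    exact horth i j
  · rw [coe_basisOfLinearIndependentOfCardEqFinrank]
    exact hv0

end Pool.Agent.GS
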