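import Pool.Agent.helper53.GS.DU
import Pool.Agent.helper13.GS.WT
import Pool.Agent.helper24.GS.SB
import Pool.Agent.helper3.GS.EM
import Pool.Agent.helper51.GS.CW
import Pool.Agent.helper95.GS.LE
import Pool.Agent.helper3.GS.LC
import Pool.Agent.helper3.GS.BA
import Pool.Agent.helper51.GS.BC
import Pool.Agent.helper23.GS.BB
import Pool.Agent.helper19.GS.PS
import Pool.Agent.helper63.GS.PO
import Pool.Agent.helper21.GS.DS1
import Pool.Agent.helper21.GS.DS2
import Pool.Agent.helper25.GS.DSS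
import Pool.Agent.helper61.GS.DS3
import Pool.Agent.helper63.GS.DSA
import Pool.Agent.helper3.GS.DSV
import Pool.Agent.helper62.GS.DSP
import Pool.Agent.helper59.GS.UN
import Pool.Agent.helper76.GS.CM
import Pool.Agent.helper11.GS.DG
import Pool.Agent.helper45.GS.OB
import Pool.Agent.helper22.GS.OC
import Pool.Agent.helper89.GS.BF
import Pool.Agent.helper95.GS.DD
import Pool.Agent.helper23.GS.EX
import Pool.Agent.helper53.GS.TL
import Pool.Agent.helper31.GS.HW
import Pool.Agent.helper49.GS.Q5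
import Pool.Agent.helper24.GS.Q3
import Pool.Agent.helper8.GS.ME
import Pool.Agent.helper76.GS.MU
import Pool.Agent.helper25.GS.MOA
import Pool.Agent.helper53.GS.MOB
import Pool.Agent.helper53.GS.HP
import Pool.Agent.helper45.GS.EF
import Pool.Agent.helper22.GS.HA1
import Pool.Agent.helper24.GS.HA2
import Pool.Agent.helper22.GS.HA
import Pool.Agent.helper24.GS.HB
import Pool.Agent.helper62.GS.HC7
import Pool.Agent.helper97.GS.HC13
import Pool.Agent.helper67.GS.HC
import Pool.Agent.helper72.GS.H1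
import Pool.Agent.helper89.GS.NK
import Pool.Agent.helper55.GS.N2
import Pool.Agent.helper66.GS.AE
import Pool.Agent.helper92.GS.AO
import Pool.Agent.helper31.GS.THE
import Pool.Agent.helper75.GS.THO
import Pool.Agent.helper11.GS.THA
import Pool.Agent.helper30.GS.TR
import Pool.Agent.helper99.GS.MB
import Pool.Agent.helper76.GS.M1
import Pool.Agent.helper61.GS.M2
import Pool.Agent.helper50.GS.RP
import Pool.Agent.helper11.GS.MLIN
import Pool.Agent.helper67.GS.MSEM
import Pool.Agent.helper95.GS.MAIN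
import Pool.Agent.helper75.GS.PD
import Pool.Agent.helper25.GS.LB
import Pool.Agent.helper20.GS.MXA
import Pool.Agent.helper59.GS.MXP
import Pool.Agent.helper50.GS.MXY
import Pool.Agent.helper46.GS.MX
import Pool.Agent.helper33.GS.CN
import Pool.Agent.helper46.GS.PR
import Pool.Agent.helper77.GS.AD
import Pool.Agent.helper72.GS.F1
import Pool.Agent.helper27.GS.FU
import Pool.Agent.helper12.GS.FL
import Pool.Agent.helper91.GS.FO
import Pool.Agent.helper59.GS.BE
import Pool.Agent.helper45.GS.FIN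

set_option autoImplicit false

namespace Pool.Agent.GS

theorem fin_DU : DU_stmt := DU 

theorem fin_WT : WT_stmt := WT fin_DU

theorem fin_SB : SB_stmt := SB 

theorem fin_EM : EM_stmt := EM fin_SB

theorem fin_CW : CW_stmt := CW 

theorem fin_LE : LE_stmt := LE fin_CW

theorem fin_LC : LC_stmt := LC fin_LE fin_CW fin_DU

theorem fin_BA : BA_stmt := BA fin_WT

theorem fin_BC : BC_stmt := BC 

theorem fin_BB : BB_stmt := BB fin_WT fin_LC fin_BC

theorem fin_PS : PS_stmt := PS fin_DU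

theorem fin_PO : PO_stmt := PO 

theorem fin_DS1 : DS1_stmt := DS1 

theorem fin_DS2 : DS2_stmt := DS2 

theorem fin_DSS : DSS_stmt := DSS fin_DS2

theorem fin_DS3 : DS3_stmt := DS3 fin_DS2 fin_DSS

theorem fin_DSA : DSA_stmt := DSA fin_DS1 fin_DS3

theorem fin_DSV : DSV_stmt := DSV 

theorem fin_DSP : DSP_stmt := DSP 

theorem fin_UN : UN_stmt := UN 

theorem fin_CM : CM_stmt := CM 

theorem fin_DG : DG_stmt := DG fin_UN fin_CM

theorem fin_OB : OB_stmt := OB 

theorem fin_OC : OC_stmt := OC fin_CM fin_OB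

theorem fin_BF : BF_stmt := BF 

theorem fin_DD : DD_stmt := DD 

theorem fin_EX : EX_stmt := EX 

theorem fin_TL : TL_stmt := TL 

theorem fin_HW : HW_stmt := HW fin_UN fin_CM fin_BF

theorem fin_Q5 : Q5_stmt := Q5 fin_UN fin_CM

theorem fin_Q3 : Q3_stmt := Q3 fin_DG fin_BF

theorem fin_ME : ME_stmt := ME fin_BF fin_DD fin_DG fin_OB

theorem fin_MU : MU_stmt := MU fin_BF fin_UN fin_Q5 fin_Q3

theorem fin_MOA : MOA_stmt := MOA fin_BF fin_DD fin_DG fin_HW fin_MU

theorem fin_MOB : MOB_stmt := MOB fin_BF fin_OC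

theorem fin_HP : HP_stmt := HP 

theorem fin_EF : EF_stmt := EF 

theorem fin_HA1 : HA1_stmt := HA1 fin_EF fin_HP

theorem fin_HA2 : HA2_stmt := HA2 fin_HP fin_EF

theorem fin_HA : HA_stmt := HA fin_HA1 fin_HA2

theorem fin_HB : HB_stmt := HB fin_HP fin_EF

theorem fin_HC7 : HC7_stmt := HC7 fin_HP fin_EF

theorem fin_HC13 : HC13_stmt := HC13 fin_HP

theorem fin_HC : HC_stmt := HC fin_HC7 fin_HC13

theorem fin_H1 : H1_stmt := H1 fin_HA fin_HB

theorem fin_NK : NK_stmt := NK 

theorem fin_N2 : N2_stmt := N2 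

theorem fin_AE : AE_stmt := AE fin_BF fin_EX fin_NK

theorem fin_AO : AO_stmt := AO fin_BF fin_EX fin_NK

theorem fin_THE : THE_stmt := THE fin_BF fin_HA fin_HB fin_ME fin_AE

theorem fin_THO : THO_stmt := THO fin_BF fin_HA fin_HB fin_HC fin_MOA fin_MOB fin_AO

theorem fin_THA : THA_stmt := THA fin_THE fin_THO

theorem fin_TR : TR_stmt := TR 

theorem fin_MB : MB_stmt := MB fin_THA fin_EM fin_TR

theorem fin_M1 : M1_stmt := M1 fin_H1 fin_N2

theorem fin_M2 : M2_stmt := M2 fin_H1 fin_N2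

theorem fin_RP : RP_stmt := RP fin_DU

theorem fin_MLIN : MLIN_stmt := MLIN fin_BA fin_BB fin_PS fin_MB fin_M1 fin_M2 fin_RP

theorem fin_MSEM : MSEM_stmt := MSEM fin_DSA fin_DSV fin_DSP fin_BA fin_MB fin_M2 fin_RP

theorem fin_MAIN : MAIN_stmt := MAIN fin_PO fin_MLIN fin_MSEM

theorem fin_PD : PD_stmt := PD fin_SB

theorem fin_LB : LB_stmt := LB fin_PD

theorem fin_MXA : MXA_stmt := MXA 

theorem fin_MXP : MXP_stmt := MXP 

theorem fin_MXY : MXY_stmt := MXY 

theorem fin_MX : MX_stmt := MX fin_MXA fin_MXP fin_MXY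

theorem fin_CN : CN_stmt := CN 

theorem fin_PR : PR_stmt := PR fin_MX fin_PD

theorem fin_AD : AD_stmt := AD 

theorem fin_F1 : F1_stmt := F1 fin_MX fin_CN fin_AD

theorem fin_FU : FU_stmt := FU fin_MAIN fin_MX fin_F1 fin_PR

theorem fin_FL : FL_stmt := FL fin_MX fin_LB

theorem fin_FO : FO_stmt := FO fin_MX fin_CN

theorem fin_BE : BE_stmt := BE 

theorem fin_FIN : FIN_stmt := FIN fin_FU fin_FL fin_FO fin_BE fin_PR

end Pool.Agent.GS
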