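import Pool.Agent.helper22.GS.SpecT

set_option autoImplicit false

namespace Pool.Agent.GS

open Module

theorem MLT (hBA : BA_stmt) (hBB : BBT_stmt) (hPS : PS_stmt) (hMB : MB_stmt) (hM1 : M1_stmt)
    (hM2 : M2_stmt) (hRP : RP_stmt) : MLT_stmt := by
  intro F V _ _ _ _ _ B hB n hn hV y ν hy hNS r hr hr2
  have hBlk : Blk B y ν := by
    by_cases h : ∃ v, B (y v) v = 0 ∧ ∀ c : F, y v ≠ c • v
    · obtain ⟨v, hv, hv'⟩ := h
      exact hBA B hB y (RingEquiv.refl F) ν hy v hv hv'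
    · push Not at h
      exact hBB B hB n hn hV y ν hy hNS h
  refine ⟨fun hrq => hRP B hB (by omega) y ν hy.ne hBlk r hr hrq, ?_⟩
  intro m hm hD
  by_cases h2 : 2 ≤ m
  · exact hMB B hB y ν hy.ne hBlk r m hr hr2 hD h2 (by omega)
  · have h1 : m = 1 := by have := hD.pos; omega
    subst h1
    by_cases h : ∃ v, B (y v) v ≠ 0
    · obtain ⟨v, hv⟩ := h
      exact hM1 B hB y ν hy v hv r hr hr2 hD
    · push Not at h
      exact hM2 B hB y _ ν hy (hPS B hB y ν hy hNS h) r hr hr2 hD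

end Pool.Agent.GS
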