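import Pool.Agent.helper22.GS.Final
import Pool.Agent.helper3.GS.LCT
import Pool.Agent.helper22.GS.BBT
import Pool.Agent.helper22.GS.DSX
import Pool.Agent.helper22.GS.DSB
import Pool.Agent.helper22.GS.DSW
import Pool.Agent.helper92.GS.DSQ
import Pool.Agent.helper1.GS.DSC
import Pool.Agent.helper59.GS.MS1
import Pool.Agent.helper22.GS.MLT
import Pool.Agent.helper22.GS.MST
import Pool.Agent.helper22.GS.MAT
import Pool.Agent.helper22.GS.F1T
import Pool.Agent.helper22.GS.FUT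
import Pool.Agent.helper22.GS.FOT
import Pool.Agent.helper22.GS.FIT

set_option autoImplicit false

namespace Pool.Agent.GS

theorem fin_LCT : LCT_stmt := LCT fin_LE fin_CW fin_DU

theorem fin_BBT : BBT_stmt := BBT fin_WT fin_LCT fin_BC

theorem fin_DSX : DSX_stmt := DSX fin_DS2 fin_DSS

theorem fin_DSB : DSB_stmt := DSB fin_DS1 fin_DSX

theorem fin_MLT : MLT_stmt := MLT fin_BA fin_BBT fin_PS fin_MB fin_M1 fin_M2 fin_RP

theorem fin_MST : MST_stmt :=
  MST fin_DSB DSW DSQ DSC fin_BA fin_MB fin_M2 (MS1 fin_H1 fin_N2) fin_RP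

theorem fin_MAT : MAT_stmt := MAT fin_PO fin_MLT fin_MST

theorem fin_F1T : F1T_stmt := F1T fin_MX fin_CN fin_AD

theorem fin_FUT : FUT_stmt := FUT fin_MAT fin_MX fin_F1T fin_PR

theorem fin_FOT : FOT_stmt := FOT fin_MX fin_CN

theorem fin_FIT : FIT_stmt := FIT fin_FUT fin_FL fin_FOT fin_BE fin_PR

end Pool.Agent.GS
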