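import Pool.Agent.helper22.GS.Defs

/-!
# Project gs (MP_561ff4_al): Q1 for the symplectic groups. Specification

THEOREM. `S = PSp(2n, q)`, `n ≥ 3`, `r` an odd prime dividing `|S|`, `x ≠ 1` in `PΓSp(2n, q)`. If `r ∣ q`, two conjugates of
`x` generate a subgroup of order divisible by `r`; if `r ∣ q^(2m) - 1`, `1 ≤ m ≤ n`, then `2m` conjugates do. So `β_r(x) ≤ r - 1`.
Sharp for transvections.

Rules: `XX_stmt` is proved in `Pool/Agent/<seat>/GS/XX.lean`: `import Pool.Agent.helper22.GS.Spec`, `namespace Pool.Agent.GS`,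
`open Module`, `theorem XX (h : YY_stmt) ... : XX_stmt`; hypotheses: any EARLIER statements of this file (take as few as possible).
Auxiliary lemmas are prefixed `XX_`. Notation `Dv q r m`: `1 ≤ m` and `r ∣ q^(2m) - 1`.

`Basic.lean` has the API: `tv_apply`, `tv_mem`, `tv_add`, `tv_inv`, `tv_pow`, `tv_smul`, `tv_comm`, `tv_conj`, `tv_conj_sp`, `Alt.neg`,
`Sim.conj_mem`, `Gen.mul`, `Gen.mono`, `Gen.one`, `Gen.conj`, `Gen.comm`, `Gen.of_pow`, `pinv`, `invp`. `[y,t] = y t y⁻¹ t⁻¹`. Notation in the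
docstrings: `T(v,a) = tv B v a`, `f(v) = B (y v) v`, `x^⊥ = {u | B x u = 0}`, `q = Nat.card F`.
-/

set_option autoImplicit false
set_option linter.unusedVariables false

namespace Pool.Agent.GS

open Module

noncomputable section

/-! ## A. Symplectic geometry -/

/-- DU (dual vectors). `v ↦ (B (u i) v)_i` is onto: the functionals `B (u i)` are linearly independent because `B` is injective; in
finite dimension `V → V*`, `v ↦ B · v` is bijective. -/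
def DU_stmt : Prop := ∀ {F V ι : Type} [Field F] [AddCommGroup V] [Module F V]
  [FiniteDimensional F V] [Fintype ι] (B : LinearMap.BilinForm F V), Alt B → ∀ u : ι → V,
  LinearIndependent F u → ∀ c : ι → F, ∃ v, ∀ i, B (u i) v = c i

/-- WT (Witt for pairs; uses DU). Step 1: `g v = v'`. If `v = v'`, `g = 1`. If `B v v' ≠ 0`: `T(v'-v, (B v v')⁻¹) v = v'`. Otherwise
take `u` with `B v u ≠ 0`, `B u v' ≠ 0` (DU for `v, v'` if independent, or for `v` alone) and compose. Step 2: `v = v' = x`,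
`w, w' ∈ x^⊥` both independent of `x`. If `w = w'` done. If `B w w' ≠ 0`: `T(w'-w, (B w w')⁻¹)` fixes `x` (`B x (w'-w) = 0`) and maps
`w` to `w'`. Otherwise take `u ∈ x^⊥` with `B w u ≠ 0`, `B w' u ≠ 0` and compose `w → u → w'` (`u - w`, `w' - u ∈ x^⊥`): by DU for
`x, w` and for `x, w'` there are `u₁, u₂ ∈ x^⊥` with `B w u₁ = 1`, `B w' u₂ = 1`; one of `u₁, u₂, u₁ + u₂` works. (The same trick in Step 1.)
Step 1 gives `g₁ v = v'`; Step 2 for `g₁ w`, `w'`. -/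
def WT_stmt : Prop := ∀ {F V : Type} [Field F] [AddCommGroup V] [Module F V]
  [FiniteDimensional F V] (B : LinearMap.BilinForm F V), Alt B → ∀ v w v' w' : V,
  LinearIndependent F ![v, w] → LinearIndependent F ![v', w'] → B v w = 0 → B v' w' = 0 →
  ∃ g ∈ SpG B, g v = v' ∧ g w = w'

/-- SB (symplectic bases). Induction on the dimension: `e ≠ 0`, `f` with `B e f = 1`; `V = ⟨e,f⟩ ⊕ ⟨e,f⟩^⊥`
(`v = B v f • e + B e v • f + v'`), and the restriction of `B` to `⟨e,f⟩^⊥` is again alternating and nondegenerate. -/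
def SB_stmt : Prop := ∀ {F V : Type} [Field F] [AddCommGroup V] [Module F V]
  [FiniteDimensional F V] (B : LinearMap.BilinForm F V), Alt B → ∃ (n : ℕ)
  (b : Basis (Fin n ⊕ Fin n) F V), (∀ i j, B (b (.inl i)) (b (.inl j)) = 0) ∧
  (∀ i j, B (b (.inr i)) (b (.inr j)) = 0) ∧
  ∀ i j, B (b (.inl i)) (b (.inr j)) = if i = j then 1 else 0

/-- EM (embeddings; uses SB). Symplectic bases of `W` (`2k` elements) and of `V` (`2n` elements), `k ≤ n`: map the first to a part of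
the second; `C x y = B (ι x) (ι y)` on basis vectors; injective because `C` is nondegenerate. -/
def EM_stmt : Prop := ∀ {F V W : Type} [Field F] [AddCommGroup V] [Module F V]
  [FiniteDimensional F V] [AddCommGroup W] [Module F W] [FiniteDimensional F W]
  (B : LinearMap.BilinForm F V) (C : LinearMap.BilinForm F W), Alt B → Alt C →
  finrank F W ≤ finrank F V → ∃ ι : W →ₗ[F] V, Function.Injective ι ∧
  ∀ x y, B (ι x) (ι y) = C x y

/-- CW (Chevalley - Warning). With a basis `e_i` the polynomial `∑ b(e_i,e_j) X_i X_j` has degree at most `2 < dim W`: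
`char_dvd_card_solutions` (Mathlib). So `p` divides the number of zeros, and there are at least two. -/
def CW_stmt : Prop := ∀ {F W : Type} [Field F] [Finite F] [AddCommGroup W] [Module F W]
  [FiniteDimensional F W] (b : LinearMap.BilinForm F W), 3 ≤ finrank F W →
  (∃ w, w ≠ 0 ∧ b w w = 0) ∧ ringChar F ∣ Nat.card {w : W // b w w = 0}

/-- LE (one eigenvalue; uses CW, DU). `f(v) = B (y v) v` is the quadratic form of the bilinear form `B (y u) v` (`y` is linear). `Z = {f = 0}`; an eigenvector is in `Z`. If `y u = a u`,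
`y u' = c u'`, `a ≠ c`, `u, u' ≠ 0` then `B u u' ≠ 0`: otherwise `f(u+u') = (a - c) B u u' = 0`, but `u + u'` is not an eigenvector (`u, u'` are independent). So for two eigenvalues
`a ≠ c` both eigenspaces have dimension one (in a plane of `E_a` there is a vector orthogonal to `u'`), `a c = ν` (apply
`B (y u) (y u') = ν B u u'`), so there is no third eigenvalue and `|Z| = 2q - 1`, not divisible by `p`: contradiction to CW. `Z ≠ {0}` by CW. So there is exactly one eigenvalue,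
`lam ≠ 0` as `y` is injective. -/
def LE_stmt : Prop := ∀ {F V : Type} [Field F] [Finite F] [AddCommGroup V] [Module F V]
  [FiniteDimensional F V] (B : LinearMap.BilinForm F V), Alt B → 3 ≤ finrank F V →
  ∀ (y : Equiv.Perm V) (ν : F), Sim B y (RingEquiv.refl F) ν →
  (∀ v, B (y v) v = 0 → ∃ c : F, y v = c • v) → ∃ lam : F, lam ≠ 0 ∧
  ∀ v, B (y v) v = 0 ↔ y v = lam • v

/-- LC (linear `y` all of whose isotropic vectors are eigenvectors; uses LE, CW, DU). LE: `Z = {f = 0} = E` is the eigenspace of `lam`. On a complement of `E` the form `f(v) = B (y v) v` has no nontrivial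
zero, so it has dimension at most 2 by CW (for the bilinear form `B (y u) v` restricted to the complement). So `dim E ≥ 2n - 2 > n`, hence there are
`u, u' ∈ E` with `B u u' ≠ 0` (a totally isotropic subspace has dimension at most `n`: DU), and `lam² = ν` (`B (y u) (y u') = ν B u u'`). -/
def LC_stmt : Prop := ∀ {F V : Type} [Field F] [Finite F] [AddCommGroup V] [Module F V]
  [FiniteDimensional F V] (B : LinearMap.BilinForm F V), Alt B → ∀ n, 3 ≤ n →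
  finrank F V = 2 * n → ∀ (y : Equiv.Perm V) (ν : F), Sim B y (RingEquiv.refl F) ν →
  (∀ v, B (y v) v = 0 → ∃ c : F, y v = c • v) → ∃ (lam : F) (E : Submodule F V), lam ≠ 0 ∧
  ν = lam ^ 2 ∧ (∀ v, v ∈ E ↔ y v = lam • v) ∧ (∀ v, B (y v) v = 0 ↔ v ∈ E) ∧
  finrank F V ≤ finrank F E + 2

/-- BA (blocks, case A; uses WT). `f(v) = 0`, `y v ∉ F v`. `[y, T(v,-s)] = T(y v, ν⁻¹ ψ(-s)) T(v, s)` (`tv_conj`). In a finite field
`s * ψ s` is a square (`ψ` preserves squares; the product of two non-squares is a square), so `-(ν s' ψ(s))` is a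
square, hence `s' = μ² ν⁻¹ ψ(-s)` for some `μ ≠ 0`. WT: `g v = x`, `g (y v) = μ • x'`... so that
`T(g (y v), ν⁻¹ ψ(-s)) = T(x', μ² ν⁻¹ ψ(-s)) = T(x', s')` (`tv_smul`). `Gen.comm`, `Gen.conj`, `tv_conj_sp`; the two factors commute. -/
def BA_stmt : Prop := ∀ {F V : Type} [Field F] [Finite F] [AddCommGroup V] [Module F V]
  [FiniteDimensional F V] (B : LinearMap.BilinForm F V), Alt B → ∀ (y : Equiv.Perm V)
  (ψ : F ≃+* F) (ν : F), Sim B y ψ ν → ∀ v, B (y v) v = 0 → (∀ c : F, y v ≠ c • v) → Blk B y ν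

/-- BC (a commutator). `t(x) = x + B(x,ρ) s0 + B(x,s0) ρ` is in `SpG B` (inverse: `-s0` for `s0`; it uses `B ρ s0 = 0`). `z t z⁻¹(x) = x + B(x,ρ) (s0+d) + B(x,s0+d) ρ` (`z ρ = ρ`, `z s0 = s0 + d`), and
`y t y⁻¹ = z t z⁻¹`. `y t y⁻¹ t⁻¹ (x) = x + B(x,ρ) d + B(x,d) ρ - κ B(x,ρ) ρ`, `κ = B s0 d`: with `x' = t⁻¹ x = x - B(x,ρ) s0 - B(x,s0) ρ`, `B(x',ρ) = B(x,ρ)`,
`B(x',s0+d) = B(x,s0) + B(x,d) - κ B(x,ρ)`. -/
def BC_stmt : Prop := ∀ {F V : Type} [Field F] [AddCommGroup V] [Module F V]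
  (B : LinearMap.BilinForm F V), Alt B → ∀ z ∈ SpG B, ∀ (y : Equiv.Perm V) (lam : F),
  lam ≠ 0 → (∀ v, y v = lam • z v) → ∀ s0 d ρ : V, z s0 = s0 + d → z ρ = ρ → B s0 ρ = 0 →
  B ρ d = 0 → ∃ t ∈ SpG B, ∀ x, (y * t * y⁻¹ * t⁻¹) x =
    x + B x ρ • d + B x d • ρ - (B s0 d * B x ρ) • ρ

/-- BB (blocks, case B; uses LC, BC, WT, DU). LC: `lam`, `E`, `ν = lam²`, `E ≠ V` (`NSc`). Let `z = lam⁻¹ y` (in `SpG B`). Choose
`s0 ∉ E`, `d = z s0 - s0 ∈ E^⊥` (`B (z v - v) u = B (z v) (z u) - B v u = 0` for `u ∈ E`), `κ = B s0 d ≠ 0`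
(`f(s0) ≠ 0`). `ρ ≠ 0` in `E ∩ s0^⊥` (`dim E ≥ 2n - 2 ≥ 4`). `B ρ d = 0`; `ρ, d` independent as `B s0 ρ = 0 ≠ B s0 d`. BC: `h = [y,t]`,
`h(x) = x + B(x,ρ) d + B(x,d) ρ - κ B(x,ρ) ρ`, `Gen B y 2 h` (`Gen.comm`). If `p = 2`: `h = T(ρ - κ⁻¹ d, -κ) T(d, κ⁻¹)` (commuting), and by WT all `T(x,s)T(x',s')` are
conjugates (`T(x,s) = T(√s x, 1)`). If `p ≠ 2`: `d' = d - (κ/2) ρ`, `h(x) = x + B(x,ρ)d' + B(x,d')ρ = T(cρ + d', (2c)⁻¹) T(cρ - d', -(2c)⁻¹)` for all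
`c ≠ 0`; given `s, s'` with `-(ν s s')` a square, i.e. `-(s s') = μ²` (`ν` is a square): `c = (2s)⁻¹`, `s' = -(μ/s)² s`, WT: `cρ + d' ↦ x`, `cρ - d' ↦ (μ/s) x'`. (`Gen.conj`, `tv_conj_sp`, `tv_smul`.) -/
def BB_stmt : Prop := ∀ {F V : Type} [Field F] [Finite F] [AddCommGroup V] [Module F V]
  [FiniteDimensional F V] (B : LinearMap.BilinForm F V), Alt B → ∀ n, 3 ≤ n →
  finrank F V = 2 * n → ∀ (y : Equiv.Perm V) (ν : F), Sim B y (RingEquiv.refl F) ν → NSc F y →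
  (∀ v, B (y v) v = 0 → ∃ c : F, y v = c • v) → Blk B y ν

/-- PS (plane `P` for `y` linear and self-adjoint; uses DU). `B (y u) v = -B (y v) u = B u (y v)`. Take `v` with `y v ∉ F v` (`NSc`; if all vectors are
eigenvectors then `y` is a scalar), `w` with `B v w = 1`, `B (y v) w = 0` (DU for `v, y v`). -/
def PS_stmt : Prop := ∀ {F V : Type} [Field F] [AddCommGroup V] [Module F V]
  [FiniteDimensional F V] (B : LinearMap.BilinForm F V), Alt B → ∀ (y : Equiv.Perm V)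
  (ν : F), Sim B y (RingEquiv.refl F) ν → NSc F y → (∀ v, B (y v) v = 0) → Pln B y

/-- PO (powers). The powers of `y` are semisimilarities (`Sim` for `1` and products). `V` is finite, so some positive power of `y` is `1`, a scalar; let `d ≥ 2`
be minimal such that `y^d` is a scalar (a map `v ↦ κ • v`), `l` a prime divisor of `d`, `j = d / l`. -/
def PO_stmt : Prop := ∀ {F V : Type} [Field F] [Finite F] [AddCommGroup V] [Module F V]
  [FiniteDimensional F V] (B : LinearMap.BilinForm F V) (y : Equiv.Perm V) (ψ : F ≃+* F)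
  (ν : F), Sim B y ψ ν → NSc F y → ∃ (j l : ℕ) (κ : F) (ψ' : F ≃+* F) (ν' : F), l.Prime ∧
  Sim B (y ^ j) ψ' ν' ∧ NSc F (y ^ j) ∧ κ ≠ 0 ∧ ∀ v, ((y ^ j) ^ l) v = κ • v

/-! ## B. Semilinear `y` of prime order modulo scalars -/

/-- DS1 (norms). The fixed field `F₀` of `ψ`, `F/F₀` is Galois with group `{1, ψ, .., ψ^(l-1)}` (`l` prime, `ψ ≠ 1`), the norm is
the product of the conjugates and `FiniteField.norm_surjective`. (Or: a generator `g` of `Fˣ`, `ψ x = x^s`, and the kernel and image of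
`x ↦ x^(1+s+..+s^(l-1))`.) -/
def DS1_stmt : Prop := ∀ {F : Type} [Field F] [Finite F] (ψ : F ≃+* F) (l : ℕ), l.Prime →
  (∃ x, ψ x ≠ x) → (∀ x, (⇑ψ)^[l] x = x) → ∀ κ : F, κ ≠ 0 → ψ κ = κ →
  ∃ lam : F, lam ≠ 0 ∧ κ * ∏ i ∈ Finset.range l, (⇑ψ)^[i] lam = 1

/-- DS2 (descent). `∑_{i<l} ψ^i(c) y^i(v)` is fixed by `y` for all `c`. If the span `U` of the fixed vectors is not `V` there are a
linear functional `φ ≠ 0` vanishing on `U` and `v` with `φ(v) ≠ 0`; then `∑ ψ^i(c) φ(y^i v) = 0` for all `c`, contradicting the independence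
of the distinct characters `1, ψ, .., ψ^(l-1)` (`linearIndependent_monoidHom`; distinct because `l` is prime and `ψ ≠ 1`). -/
def DS2_stmt : Prop := ∀ {F V : Type} [Field F] [AddCommGroup V] [Module F V]
  (ψ : F ≃+* F) (l : ℕ), l.Prime → (∃ x, ψ x ≠ x) → (∀ x, (⇑ψ)^[l] x = x) →
  ∀ y : Equiv.Perm V, (∀ u v, y (u + v) = y u + y v) → (∀ (c : F) v, y (c • v) = ψ c • y v) →
  (∀ v, (y ^ l) v = v) → Submodule.span F {u | y u = u} = ⊤

/-- DSS (one more hyperbolic pair of fixed vectors; uses DS2, DU). For fixed `u, v`: `B u v = ν ψ(B u v)`; as `μ = ν ψ(μ) ≠ 0`, `B u v / μ` is fixed by `ψ`. The projection `P w = w - ∑ (B w f_i / μ) e_i + ∑ (B w e_i / μ) f_i` maps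
fixed vectors to fixed vectors orthogonal to all `e_i, f_i`, and the `P w`, `w` fixed, span (DS2) the orthogonal complement `W` of `⟨e_i, f_i⟩`, of dimension at least `2n - 2k > 0`. So there is such a fixed `e' ≠ 0` in `W`, and there is
`f'` fixed in `W` with `B e' f' ≠ 0` (otherwise `B e'` vanishes on `W` and on all `e_i, f_i`, hence on `V`); multiply `f'` by `μ / B e' f'` (fixed by `ψ`). -/
def DSS_stmt : Prop := ∀ {F V : Type} [Field F] [AddCommGroup V] [Module F V]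
  [FiniteDimensional F V] (B : LinearMap.BilinForm F V), Alt B → ∀ (y : Equiv.Perm V)
  (ψ : F ≃+* F) (ν : F), Sim B y ψ ν →
  ∀ l : ℕ, l.Prime → (∃ x, ψ x ≠ x) → (∀ x, (⇑ψ)^[l] x = x) → (∀ v, (y ^ l) v = v) →
  ∀ (μ : F), μ ≠ 0 → μ = ν * ψ μ → ∀ (k : ℕ) (e f : Fin k → V), 2 * k < finrank F V →
  (∀ i, y (e i) = e i ∧ y (f i) = f i) →
  (∀ i j, B (e i) (e j) = 0 ∧ B (f i) (f j) = 0 ∧ B (e i) (f j) = if i = j then μ else 0) →
  ∃ e' f' : V, y e' = e' ∧ y f' = f' ∧ B e' f' = μ ∧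
    ∀ i, B e' (e i) = 0 ∧ B e' (f i) = 0 ∧ B f' (e i) = 0 ∧ B f' (f i) = 0

/-- DS3 (three hyperbolic pairs of fixed vectors; uses DS2, DSS). The fixed vectors span `V ≠ 0` (DS2), so there are fixed `u, v` with `μ = B u v ≠ 0`, and `μ = ν ψ(μ)`. Apply DSS for `k = 0, 1, 2` (`Fin.cons` or `Fin.snoc`, or `![e₀, e₁, e₂]`). -/
def DS3_stmt : Prop := ∀ {F V : Type} [Field F] [AddCommGroup V] [Module F V]
  [FiniteDimensional F V] (B : LinearMap.BilinForm F V), Alt B → ∀ n, 3 ≤ n →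
  finrank F V = 2 * n → ∀ (y : Equiv.Perm V) (ψ : F ≃+* F) (ν : F), Sim B y ψ ν →
  ∀ l : ℕ, l.Prime → (∃ x, ψ x ≠ x) → (∀ x, (⇑ψ)^[l] x = x) → (∀ v, (y ^ l) v = v) →
  ∃ (μ : F) (e f : Fin 3 → V), μ ≠ 0 ∧ (∀ i, y (e i) = e i ∧ y (f i) = f i) ∧
  ∀ i j, B (e i) (e j) = 0 ∧ B (f i) (f j) = 0 ∧ B (e i) (f j) = if i = j then μ else 0

/-- DSA (uses DS1, DS3). `ψ κ = κ` (`y` commutes with `y^l`; `V ≠ 0`), `ψ^l = 1` (`y^l (c v) = ψ^l(c) y^l v = κ c v`). DS1: `lam`; `y' = lam • y` is a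
semisimilarity with `y'^l = 1` (`(lam y)^l v = lam ψ(lam) .. ψ^(l-1)(lam) y^l v`), multiplier `lam² ν`. DS3 for `y'`. -/
def DSA_stmt : Prop := ∀ {F V : Type} [Field F] [Finite F] [AddCommGroup V] [Module F V]
  [FiniteDimensional F V] (B : LinearMap.BilinForm F V), Alt B → ∀ n, 3 ≤ n →
  finrank F V = 2 * n → ∀ (y : Equiv.Perm V) (ψ : F ≃+* F) (ν : F), Sim B y ψ ν →
  (∃ x, ψ x ≠ x) → ∀ (l : ℕ) (κ : F), l.Prime → κ ≠ 0 → (∀ v, (y ^ l) v = κ • v) →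
  Trip B y ∧ ∀ x, (⇑ψ)^[l] x = x

/-- DSV. `κ` with `ψ κ ≠ κ`; `v = e_0 + κ e_1`: `lam y v = e_0 + ψ(κ) e_1`, `B (y v) v = 0`, `y v ∉ F v`. -/
def DSV_stmt : Prop := ∀ {F V : Type} [Field F] [AddCommGroup V] [Module F V]
  (B : LinearMap.BilinForm F V), Alt B → ∀ (y : Equiv.Perm V) (ψ : F ≃+* F) (ν : F),
  Sim B y ψ ν → (∃ x, ψ x ≠ x) → Trip B y → ∃ v, B (y v) v = 0 ∧ ∀ c : F, y v ≠ c • v

/-- DSP (the plane `P`). `κ` with `ψ κ ≠ κ`, `X = (1, κ, κ²)`. If `ψ(ψ κ) = κ`: `X, ψ X` are independent and `ψ⁻¹ X = ψ X`. Otherwise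
`κ, ψ κ, ψ⁻¹ κ` are distinct and `X, ψ X, ψ⁻¹ X` are independent (Vandermonde). So there is `X' ∈ F³` with `X·X' = 1`, `ψ(X)·X' = 0`,
`ψ⁻¹(X)·X' = 0`. `v = ∑ X_i e_i`, `w = ∑ X'_i f_i`: `B v w = μ`, `lam y v = ∑ ψ(X_i) e_i`, `lam y w = ∑ ψ(X'_i) f_i`, `B (y v) w = 0`,
`B v (y w) = lam⁻¹ μ X·ψ(X') = lam⁻¹ μ ψ(ψ⁻¹(X)·X') = 0`. -/
def DSP_stmt : Prop := ∀ {F V : Type} [Field F] [AddCommGroup V] [Module F V]
  (B : LinearMap.BilinForm F V), Alt B → ∀ (y : Equiv.Perm V) (ψ : F ≃+* F) (ν : F),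
  Sim B y ψ ν → (∃ x, ψ x ≠ x) → Trip B y → Pln B y

/-! ## C. Symmetric forms over finite fields -/

/-- UN (universality, odd characteristic). There are `e, e'` with `b e e' = 0`, `b e e ≠ 0`, `b e' e' ≠ 0` (a nonzero symmetric form has a non-isotropic vector;
complement; nondegenerate), and `b e e X² + b e' e' Y² = c` is solvable: `FiniteField.exists_root_sum_quadratic`. -/
def UN_stmt : Prop := ∀ {F W : Type} [Field F] [Finite F] [AddCommGroup W] [Module F W]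
  [FiniteDimensional F W] (b : LinearMap.BilinForm F W), ringChar F ≠ 2 → Sym b →
  2 ≤ finrank F W → ∀ c : F, c ≠ 0 → ∃ w, b w w = c

/-- CM (complements). `W' = {x | b v x = 0}` is a complement of `F v`, `b` is nondegenerate on it; for any basis `γ` of `W'` the family
`v, γ` is a basis of `W`, its Gram matrix is block diagonal, and the Gram determinants of two bases differ by a nonzero square. -/
def CM_stmt : Prop := ∀ {F W ι : Type} [Field F] [AddCommGroup W] [Module F W]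
  [FiniteDimensional F W] [Fintype ι] [DecidableEq ι] (b : LinearMap.BilinForm F W), Sym b →
  ∀ (β : Basis ι F W) (v : W), b v v ≠ 0 → ∃ W' : Submodule F W, (∀ x, x ∈ W' ↔ b v x = 0) ∧
  Sym (b.domRestrict₁₂ W' W') ∧ finrank F W' + 1 = finrank F W ∧
  ∀ (κ : Type) [Fintype κ] [DecidableEq κ] (γ : Basis κ F W'),
    dt b β ≠ 0 ∧ IsSquare (dt b β * (b v v * dt (b.domRestrict₁₂ W' W') γ))

/-- DG (orthogonal bases with given norms, odd characteristic; uses UN, CM). Induction on the dimension. Dimension one: `b(β,β) c = μ²`, take `(μ / b(β,β)) β`.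
Dimension at least two: UN: `v` with `b v v = c i₀`; CM and the induction hypothesis for `W'` and the index set `{i // i ≠ i₀}`. The second part (with the vector
`v` given) is the same step. -/
def DG_stmt : Prop := ∀ {F W ι : Type} [Field F] [Finite F] [AddCommGroup W] [Module F W]
  [FiniteDimensional F W] [Fintype ι] [DecidableEq ι] (b : LinearMap.BilinForm F W),
  ringChar F ≠ 2 → Sym b → ∀ (β : Basis ι F W) (c : ι → F), (∀ i, c i ≠ 0) →
  IsSquare (dt b β * ∏ i, c i) → (∃ u : Basis ι F W, Orth b u c) ∧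
  ∀ (i₀ : ι) (v : W), b v v = c i₀ → ∃ u : Basis ι F W, Orth b u c ∧ u i₀ = v

/-- OB (orthonormal bases in characteristic two). Induction on the dimension, for nondegenerate symmetric `b` which is not alternating. Take `x` with `b x x = 1` (finite
fields of characteristic two: everything is a square). `x^⊥` is nondegenerate. If `b` is not alternating on it, induction. If it is alternating and not zero, take a hyperbolic pair
`e, f` in it (`b e e = b f f = 0`, `b e f = 1`); then `x' = x + e`, `x'' = x + f`, `x''' = x + e + f` are orthonormal, and one applies the induction hypothesis to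
`x'^⊥`, which is not alternating since it contains `x''`. -/
def OB_stmt : Prop := ∀ {F W ι : Type} [Field F] [Finite F] [AddCommGroup W] [Module F W]
  [FiniteDimensional F W] [Fintype ι] [DecidableEq ι] (b : LinearMap.BilinForm F W),
  ringChar F = 2 → Sym b → ∀ (β : Basis ι F W), (∃ x, b x x ≠ 0) →
  ∃ u : Basis ι F W, Orth b u (fun _ => 1)

/-- OC (orthonormal bases through a given vector; uses OB). `b u0 u0 = 1`, `b` not alternating on `u0^⊥` (hypothesis): OB for `u0^⊥`. -/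
def OC_stmt : Prop := ∀ {F W ι : Type} [Field F] [Finite F] [AddCommGroup W] [Module F W]
  [FiniteDimensional F W] [Fintype ι] [DecidableEq ι] (b : LinearMap.BilinForm F W),
  ringChar F = 2 → Sym b → ∀ (β : Basis ι F W) (i₀ : ι) (u0 : W), b u0 u0 = 1 →
  (∃ x, b u0 x = 0 ∧ b x x ≠ 0) → ∃ u : Basis ι F W, Orth b u (fun _ => 1) ∧ u i₀ = u0

/-! ## D. The forms `tr(α⁻¹ x y)` -/

/-- BF. The trace form is nondegenerate (`K/F` is separable: finite fields), so `bf F K α` and `B0 F K` are. -/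
def BF_stmt : Prop := ∀ {F K : Type} [Field F] [Field K] [Algebra F K] [Finite K]
  [FiniteDimensional F K], (∀ α : K, α ≠ 0 → Sym (bf F K α)) ∧ Alt (B0 F K) ∧
  finrank F (K × K) = 2 * finrank F K

/-- DD (discriminants, odd characteristic). `dt (bf α) β = N(α⁻¹) dt (bf 1) β` (the matrix of the multiplication by `α⁻¹`; `Algebra.norm`), `dt ≠ 0`, and `N(γ)` is a square in `F` if and only if
`γ` is a square in `K` (`N(γ) = γ^((q^m-1)/(q-1))`; for a generator `g` of `Kˣ`, `N(g)` is a generator of `Fˣ` because the norm is onto, and `N(g^i) = N(g)^i`). -/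
def DD_stmt : Prop := ∀ {F K ι : Type} [Field F] [Field K] [Algebra F K] [Finite K]
  [FiniteDimensional F K] [Fintype ι] [DecidableEq ι] (β : Basis ι F K), ringChar F ≠ 2 →
  ∀ α : K, α ≠ 0 → (dt (bf F K α) β ≠ 0 ∧
    (IsSquare (dt (bf F K α) β * dt (bf F K 1) β) ↔ IsSquare α))

/-- EX (expansion). `x = ∑ (d_i)⁻¹ bf(x, u_i) u_i` for all `x`; put `x = α w`. -/
def EX_stmt : Prop := ∀ {F K ι : Type} [Field F] [Field K] [Algebra F K]
  [FiniteDimensional F K] [Fintype ι] [DecidableEq ι] (α : K) (u : Basis ι F K) (d : ι → F),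
  α ≠ 0 → (∀ i, d i ≠ 0) → Orth (bf F K α) u d →
  ∀ w : K, ∑ i, ((d i)⁻¹ * Algebra.trace F K (w * u i)) • u i = α * w

/-- TL (lists of transvections in `K × K`). `tv (B0) (u,0) s (a,b) = (a - s tr(b u) u, b)`, `tv (B0) (0,u) s (a,b) = (a, b + s tr(a u) u)`; induction on the list. -/
def TL_stmt : Prop := ∀ {F K : Type} [Field F] [Field K] [Algebra F K] [Finite K]
  [FiniteDimensional F K], Alt (B0 F K) → ∀ (L : List (K × F)) (a b : K),
  (L.map fun t => tv (B0 F K) ((t.1, 0) : K × K) t.2).prod (a, b) =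
    (a - (L.map fun t => (t.2 * Algebra.trace F K (b * t.1)) • t.1).sum, b) ∧
  (L.map fun t => tv (B0 F K) ((0, t.1) : K × K) t.2).prod (a, b) =
    (a, b + (L.map fun t => (t.2 * Algebra.trace F K (a * t.1)) • t.1).sum)

/-- HW (a vector of norm `δ'` in a hyperplane, odd characteristic, `m = finrank ≥ 3`; uses UN, CM). `H = {w | tr(u w) = 0} = (β u)^⊥` for `b = bf β`. If
`b(βu, βu) = tr(β u²) ≠ 0`, `H` is nondegenerate of dimension at least 2: UN. If `tr(β u²) = 0`, let `c` be the norm of a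
vector `w₁ ∈ H`, `b(w₁,w₁) ≠ 0` (`H / F βu` is nondegenerate of dimension `m - 2 ≥ 1`). If `m ≥ 4`: `H` contains a nondegenerate subspace of dimension at least 2 (a complement of `F β u` in `H`): UN. If
`m = 3`: `w₁^⊥` is a nondegenerate plane with the isotropic vector `β u`, so its discriminant is `-1` modulo squares, `dt b ~ -c`; by the hypothesis on the
discriminant `c ~ δ'`, and a multiple of `w₁` has norm `δ'`. -/
def HW_stmt : Prop := ∀ {F K ι : Type} [Field F] [Field K] [Algebra F K] [Finite K]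
  [FiniteDimensional F K] [Fintype ι] [DecidableEq ι] (β₀ : Basis ι F K), ringChar F ≠ 2 →
  3 ≤ finrank F K → ∀ (β u : K) (δ' : F), β ≠ 0 → u ≠ 0 → δ' ≠ 0 →
  (finrank F K = 3 → Algebra.trace F K (β * u ^ 2) = 0 → IsSquare (-(δ' * dt (bf F K β) β₀))) →
  ∃ w : K, Algebra.trace F K (u * w) = 0 ∧ bf F K β w w = δ'

/-- Q5 (`q ≥ 5`, `finrank = 3`; uses UN, CM). Suppose `b₁ u u = δ` implies `b₂ u u = 0`, where `b₁ = bf α`, `b₂(x,y) = tr(σ α⁻¹ x y) = bf (α/σ)`. UN: `u₁` with `b₁ u₁ u₁ = δ`. `W = u₁^⊥` (for `b₁`,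
nondegenerate, dimension 2), orthogonal basis `e, e'` of `W`, of nonzero norms. Let `g ∈ W`, `c = b₁ g g ≠ 0`. Take `t ≠ 0` with `δ t² + c ≠ 0` (at most two bad `t`,
`q - 1 ≥ 4`), `Y = 2δt/(δt²+c) ≠ 0`, `X = 1 - tY`: `δX² + cY² = δ`. So `b₂ = 0` at `X u₁ ± Y g`; adding: `2X² b₂ u₁ u₁ + 2Y² b₂ g g = 0`, and `b₂ u₁ u₁ = 0`: `b₂ g g = 0`. For
`g = e, e', e + t e'` (`t ≠ 0`, norm `≠ 0`): `b₂ = 0` on `W`. But `b₂` is nondegenerate on `K`, of dimension 3, and `W` has dimension 2: contradiction. -/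
def Q5_stmt : Prop := ∀ {F K : Type} [Field F] [Field K] [Algebra F K] [Finite K]
  [FiniteDimensional F K], ringChar F ≠ 2 → 5 ≤ Nat.card F → finrank F K = 3 →
  ∀ (α σ : K) (δ : F), α ≠ 0 → σ ≠ 0 → δ ≠ 0 →
  ∃ u : K, bf F K α u u = δ ∧ Algebra.trace F K (σ * α⁻¹ * u ^ 2) ≠ 0

/-- Q3 (`q = 3`, `finrank = 3`; uses DG). `dt (bf α) β₀ * δ` is a square, so (`δ³ ~ δ`) there is an orthogonal basis `u_i` with all norms `δ` (DG). The
trace of the multiplication by `σ` is `∑ bf α (σ u_i) u_i / δ = ∑ tr(σ α⁻¹ u_i²) / δ`, and it is not zero. (Valid for all `q`.) -/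
def Q3_stmt : Prop := ∀ {F K : Type} [Field F] [Field K] [Algebra F K] [Finite K]
  [FiniteDimensional F K] (β₀ : Basis (Fin 3) F K), ringChar F ≠ 2 →
  ∀ (α σ : K) (δ : F), α ≠ 0 → δ ≠ 0 → IsSquare (dt (bf F K α) β₀ * δ) →
  Algebra.trace F K σ ≠ 0 →
  ∃ u : K, bf F K α u u = δ ∧ Algebra.trace F K (σ * α⁻¹ * u ^ 2) ≠ 0

/-- ME (`m = 2k` even; uses BF, DD, DG, OB). Odd characteristic: let `β₀` be a basis indexed by `Fin k ⊕ Fin k`, `D = dt (bf 1) β₀`. By DD there is `α ≠ 0` with `dt (bf α) β₀ * ∏ nrm' = dt (bf α) β₀ (-τ)^k` a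
square (`K` has a non-square). `β = σ/α`: `α β = σ` is a square so `β` and `α` have the same class, so the same holds for `β` (`dt(bf β) D` is a square iff `β` is iff `α` is iff `dt(bf α) D` is;
in a finite field the product of two non-squares is a square). DG twice. Characteristic two: `α = 1`, `β = σ`, OB for both (not alternating: `bf α x x = tr(α⁻¹ x²)`, `α⁻¹ x²` takes all values, the trace is not
zero); multiply the second half of the vectors by `√(-τ)`. -/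
def ME_stmt : Prop := ∀ {F K : Type} [Field F] [Field K] [Algebra F K] [Finite K]
  [FiniteDimensional F K] (k : ℕ), 1 ≤ k → finrank F K = 2 * k → ∀ (σ : K) (τ : F), σ ≠ 0 →
  τ ≠ 0 → IsSquare σ → ∃ (α β : K) (u w : Basis (Fin k ⊕ Fin k) F K), α ≠ 0 ∧ β ≠ 0 ∧
  α * β = σ ∧ Orth (bf F K α) u (nrm' τ) ∧ Orth (bf F K β) w (nrm' τ)

/-- MU (the vector `u0`; uses BF, UN, Q5, Q3). If `k ≥ 2` or `τ` is a square: UN (`Sym (bf F K 1)`, BF). If `k = 1` and `τ` is not a square: Q5 with `α = 1` if `q ≥ 5`, Q3 with `α = 1` if `q = 3` (reindex `β₀`;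
`-τ` is a square, as `τ` and `-1` are not squares in the field with three elements, so `dt (bf 1) β₀ * δ` is a square). `q` is odd, so `q = 3` or `q ≥ 5`. -/
def MU_stmt : Prop := ∀ {F K : Type} [Field F] [Field K] [Algebra F K] [Finite K]
  [FiniteDimensional F K] (k : ℕ) (β₀ : Basis (Unit ⊕ (Fin k ⊕ Fin k)) F K), ringChar F ≠ 2 →
  1 ≤ k → ∀ (σ : K) (τ δ : F), σ ≠ 0 → τ ≠ 0 → δ ≠ 0 →
  IsSquare (dt (bf F K 1) β₀ * (δ * (-τ) ^ k)) →
  (Nat.card F = 3 → k = 1 → ¬ IsSquare τ → Algebra.trace F K σ ≠ 0) →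
  ∃ u0 : K, bf F K 1 u0 u0 = δ ∧
    (k = 1 → ¬ IsSquare τ → Algebra.trace F K (σ * u0 ^ 2) ≠ 0)

/-- MOA (`m = 2k+1` odd, odd characteristic; uses BF, DD, DG, HW, MU). `β₀` a basis indexed by `Unit ⊕ Fin k ⊕ Fin k`. `α = 1`, `β = σ`. `δ = dt (bf α) β₀ (-τ)^k`, `δ' = dt (bf β) β₀ (-τ)^k`. So `dt (bf α) β₀ (δ (-τ)^k)` is a square, also
for `β`, `δ'`. `dt(bf α) dt(bf β)` is a square iff `σ` is (DD), iff `τ` is: so `τ δ δ'` is a square (the product of two non-squares is a square). MU: `u0`. HW: `w0` with `tr(u0 w0) = 0`, `bf β w0 w0 = δ'`; the condition in HW: `k = 1` and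
`tr(σ u0²) = 0`, so `τ` is a square by MU, and `-(δ' dt(bf β))` is a square because `dt(bf β) δ' (-τ)` and `τ` are. Then DG (second part): bases through `u0`, `w0` with the norms `nrm τ δ`, `nrm τ δ'`. -/
def MOA_stmt : Prop := ∀ {F K : Type} [Field F] [Field K] [Algebra F K] [Finite K]
  [FiniteDimensional F K] (k : ℕ), ringChar F ≠ 2 → 1 ≤ k → finrank F K = 2 * k + 1 →
  ∀ (σ : K) (τ : F), σ ≠ 0 → τ ≠ 0 → (IsSquare σ ↔ IsSquare τ) →
  (Nat.card F = 3 → k = 1 → ¬ IsSquare τ → Algebra.trace F K σ ≠ 0) →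
  ∃ (α β : K) (δ δ' : F) (u w : Basis (Unit ⊕ (Fin k ⊕ Fin k)) F K), α ≠ 0 ∧ β ≠ 0 ∧ δ ≠ 0 ∧
  δ' ≠ 0 ∧ α * β = σ ∧ Orth (bf F K α) u (nrm τ δ) ∧ Orth (bf F K β) w (nrm τ δ') ∧
  IsSquare (τ * δ * δ') ∧ Algebra.trace F K (u (.inl ()) * w (.inl ())) = 0

/-- MOB (`m = 2k+1` odd, characteristic two; uses BF, OC). `α = 1`, `β = σ`, `δ = δ' = 1`. For `α ≠ 0` let `e_α² = α`: `bf α x x = tr((x/e_α)²) = (tr(x/e_α))² = (bf α x e_α)²`, `bf α e_α e_α = tr 1 = 1`. If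
`bf α u u = 1`, `u ≠ e_α` then `bf α` is not alternating on `u^⊥`: otherwise `bf α x e_α = 0` for all `x ∈ u^⊥`, so `e_α ∈ F u`, `e_α = u`. Choose `u0` with `tr(u0/e_α) = 1`, `u0 ≠ e_α`,
`u0 ∉ F e_β⁻¹` (an affine hyperplane not containing `0` with `q^(m-1) ≥ 4` elements; it meets the line in at most one point), then `w0` with `tr(w0/e_β) = 1`, `tr(u0 w0) = 0`, `w0 ≠ e_β` (two
independent functionals, so at least `q^(m-2) ≥ 2` solutions). OC twice; multiply the last `k` vectors by `√(-τ)`. -/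
def MOB_stmt : Prop := ∀ {F K : Type} [Field F] [Field K] [Algebra F K] [Finite K]
  [FiniteDimensional F K] (k : ℕ), ringChar F = 2 → 1 ≤ k → finrank F K = 2 * k + 1 →
  ∀ (σ : K) (τ : F), σ ≠ 0 → τ ≠ 0 →
  ∃ (α β : K) (δ δ' : F) (u w : Basis (Unit ⊕ (Fin k ⊕ Fin k)) F K), α ≠ 0 ∧ β ≠ 0 ∧ δ ≠ 0 ∧
  δ' ≠ 0 ∧ α * β = σ ∧ Orth (bf F K α) u (nrm τ δ) ∧ Orth (bf F K β) w (nrm τ δ') ∧
  IsSquare (τ * δ * δ') ∧ Algebra.trace F K (u (.inl ()) * w (.inl ())) = 0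

/-! ## E. Elements of order divisible by `r` -/

/-- HP. `h` is an eigenvalue of `M` over `E` (the characteristic polynomial is `X² - (2+σ)X + 1`), so `h^j = c`; `c² = det (M^j) = 1`; `h^(2j) = 1`; `r ∣ 2j`, `r` odd. -/
def HP_stmt : Prop := ∀ {K E : Type} [Field K] [Field E] [Algebra K E] (r : ℕ), r.Prime →
  r ≠ 2 → ∀ (σ : K) (h : E), h ≠ 0 → h + h⁻¹ = 2 + algebraMap K E σ → r ∣ orderOf h →
  ∀ M : Matrix (Fin 2) (Fin 2) K, M.det = 1 → M.trace = 2 + σ →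
  ∀ (j : ℕ) (c : K), M ^ j = c • (1 : Matrix (Fin 2) (Fin 2) K) → r ∣ j

/-- EF (fields). `K = FiniteField.Extension F p m` (Mathlib, FieldTheory/Finite/Extension.lean: `finrank_extension`, `natCard_extension`, `Module.Finite`), `E = FiniteField.Extension K p 2`. Generators of the cyclic groups `Eˣ`, `Kˣ`. `x^Q = x` for all `Q` elements of
the image of `K`, `Q = |K|`, and `X^Q - X` has at most `Q` roots. -/
def EF_stmt : Prop := ∀ {F : Type} [Field F] [Finite F] (m : ℕ), 1 ≤ m →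
  ∃ (K E : Type) (_ : Field K) (_ : Field E) (_ : Algebra F K) (_ : Algebra K E),
    Finite K ∧ Finite E ∧ finrank F K = m ∧ Nat.card K = Nat.card F ^ m ∧
    (∃ g : E, g ≠ 0 ∧ orderOf g = Nat.card K ^ 2 - 1) ∧
    (∃ g : K, g ≠ 0 ∧ orderOf g = Nat.card K - 1) ∧
    ∀ x : E, x ^ Nat.card K = x → ∃ a : K, algebraMap K E a = x

/-- HA1 (odd characteristic, `r ∣ q^m + 1`; uses HP, EF). `Q = q^m`, `g` a generator of `Eˣ`; `x ∈ E` is in `K` iff `x^Q = x`. Non-square: `h` of order `r`, `k = h^((r+1)/2)`, `k² = h`; `σ = h + h⁻¹ - 2 = (k - k⁻¹)² ∈ K`, `≠ 0`; `h^Q = h⁻¹`,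
`k^Q = k⁻¹`, so `(k - k⁻¹)^Q = -(k - k⁻¹)` and `σ` is not a square in `K`. Square: `h = g^(Q-1)` of order `Q + 1`, `κ = g^((Q-1)/2)`, `κ^(Q+1) = -1`, `κ^Q = -κ⁻¹`, `s = κ - κ⁻¹ ∈ K`, `σ = s² = h + h⁻¹ - 2`. -/
def HA1_stmt : Prop := ∀ {F : Type} [Field F] [Finite F] (r m : ℕ), ringChar F ≠ 2 → r.Prime →
  r ≠ 2 → 1 ≤ m → r ∣ Nat.card F ^ m + 1 →
  (∃ (K : Type) (_ : Field K) (_ : Algebra F K) (σ : K), HD F K r m σ ∧ IsSquare σ) ∧
  ∃ (K : Type) (_ : Field K) (_ : Algebra F K) (σ : K), HD F K r m σ ∧ ¬ IsSquare σ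

/-- HA2 (odd characteristic, `r ∣ q^m - 1`; uses HP with `E = K`, EF). `Q = q^m`. Square: `h ∈ K` of order `r`, `k = h^((r+1)/2)`, `k² = h`, `σ = ((h-1)/k)² = h + h⁻¹ - 2`; non-square: `h` a generator of `Kˣ` (not a square, `Q` odd),
`σ = (h-1)²/h = h + h⁻¹ - 2`. -/
def HA2_stmt : Prop := ∀ {F : Type} [Field F] [Finite F] (r m : ℕ), ringChar F ≠ 2 → r.Prime →
  r ≠ 2 → 1 ≤ m → r ∣ Nat.card F ^ m - 1 →
  (∃ (K : Type) (_ : Field K) (_ : Algebra F K) (σ : K), HD F K r m σ ∧ IsSquare σ) ∧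
  ∃ (K : Type) (_ : Field K) (_ : Algebra F K) (σ : K), HD F K r m σ ∧ ¬ IsSquare σ

/-- HA (odd characteristic, existence; uses HA1, HA2). `q^(2m) - 1 = (q^m - 1)(q^m + 1)`, `r` is prime. -/
def HA_stmt : Prop := ∀ {F : Type} [Field F] [Finite F] (r m : ℕ), ringChar F ≠ 2 → r.Prime →
  r ≠ 2 → Dv (Nat.card F) r m →
  (∃ (K : Type) (_ : Field K) (_ : Algebra F K) (σ : K), HD F K r m σ ∧ IsSquare σ) ∧
  ∃ (K : Type) (_ : Field K) (_ : Algebra F K) (σ : K), HD F K r m σ ∧ ¬ IsSquare σ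

/-- HB (characteristic two, existence; uses HP, EF). `h ∈ E` of order `r` (`r ∣ Q² - 1`, `Q = q^m`), `r ∣ Q - 1` or `r ∣ Q + 1`, `h^Q = h` or `h⁻¹`, so `σ = h + h⁻¹` is fixed by `x ↦ x^Q`, `σ ≠ 0` (`h² ≠ 1`; `2 = 0`). Everything in `K` is a square. -/
def HB_stmt : Prop := ∀ {F : Type} [Field F] [Finite F] (r m : ℕ), ringChar F = 2 → r.Prime →
  r ≠ 2 → Dv (Nat.card F) r m →
  ∃ (K : Type) (_ : Field K) (_ : Algebra F K) (σ : K), HD F K r m σ ∧ IsSquare σ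

/-- HC7 (`q = 3`, `m = 3`, `r = 7`; uses HP, EF). `K` has 27 elements, `tr(x) = x + x³ + x⁹` (`FiniteField.algebraMap_trace_eq_sum_pow`), `E` with 729 elements, `h` of order 7 in `E` (`728 = 7·104`), `h^27 = h⁻¹`. `σ = h + h⁻¹ - 2 = (k - k⁻¹)²`, `k = h⁴`, is not a square as in
HA1, `tr(σ) = h + h⁻¹ + h³ + h⁻³ + h² + h⁻² - 6 = -1 ≠ 0` (`1 + h + .. + h⁶ = 0`). -/
def HC7_stmt : Prop := ∀ {F : Type} [Field F] [Finite F], Nat.card F = 3 →
  ∃ (K : Type) (_ : Field K) (_ : Algebra F K) (σ : K), HD F K 7 3 σ ∧ ¬ IsSquare σ ∧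
    Algebra.trace F K σ ≠ 0

/-- HC13 (`q = 3`, `m = 3`, `r = 13`; uses HP with `E = K`, EF). There is `h ∈ K` with `h³ - h + 1 = 0` (`x ↦ x³ - x` is additive with kernel of 3 elements, so its image has 9 elements and is the kernel of the trace
`x + x³ + x⁹`, and the trace of `-1` is `-3 = 0`; or: `X³ - X + 1` is irreducible over `F`, take `K = AdjoinRoot`). `h^9 = (h-1)^3 = h³ - 1 = h + 1`, `h^13 = h^9 h^3 h = (h+1)(h-1)h = h³ - h = -1`. So `h` is not a square (`x^26 = 1` for `x ≠ 0`), its order divides 26 and is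
divisible by 13 (`h² ≠ 1`: otherwise `h = ±1`, and `h³ - h + 1 = 1`). `σ = (h-1)²/h = h + h⁻¹ - 2` is not a square, `≠ 0`; `tr(h) = h + (h-1) + (h+1) = 0`, `h⁻¹ = 1 - h²`, `tr(h²) = h² + (h-1)² + (h+1)² = 2`, `tr(h⁻¹) = -2 = 1`, `tr(σ) = 1 - 6 = 1 ≠ 0`. -/
def HC13_stmt : Prop := ∀ {F : Type} [Field F] [Finite F], Nat.card F = 3 →
  ∃ (K : Type) (_ : Field K) (_ : Algebra F K) (σ : K), HD F K 13 3 σ ∧ ¬ IsSquare σ ∧
    Algebra.trace F K σ ≠ 0

/-- HC (uses HC7, HC13). `r ∣ 3⁶ - 1 = 728 = 8·7·13`, so `r = 7` or `r = 13`. -/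
def HC_stmt : Prop := ∀ {F : Type} [Field F] [Finite F] (r : ℕ), Nat.card F = 3 → r.Prime →
  r ≠ 2 → Dv 3 r 3 →
  ∃ (K : Type) (_ : Field K) (_ : Algebra F K) (σ : K), HD F K r 3 σ ∧ ¬ IsSquare σ ∧
    Algebra.trace F K σ ≠ 0

/-- H1 (`m = 1`: `K = F`; uses HA, HB). For `m = 1`, `finrank F K = 1`, `algebraMap F K` is bijective: `HD F K r 1 σ` gives `HD F F r 1 σ'` (map matrices over `F` to matrices over `K`), and `σ'` is a square iff `σ` is. Choose the class of `ν`: the product of two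
non-squares of a finite field is a square. -/
def H1_stmt : Prop := ∀ {F : Type} [Field F] [Finite F] (r : ℕ), r.Prime → r ≠ 2 →
  Dv (Nat.card F) r 1 → ∀ ν : F, ν ≠ 0 → ∃ σ : F, HD F F r 1 σ ∧ IsSquare (σ * ν)

/-- NK. `z^j (a,b)` is given by the matrix `M^j`, `M = !![1 + αβ, α; β, 1]`, `det M = 1`, `tr M = 2 + αβ`. If `z^j` is the scalar `c ∈ F` then `M^j = c`. -/
def NK_stmt : Prop := ∀ {F K : Type} [Field F] [Field K] [Algebra F K] (r m : ℕ) (α β : K),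
  HD F K r m (α * β) → ∀ z : Equiv.Perm (K × K),
  (∀ a b, z (a, b) = ((1 + α * β) * a + α * b, β * a + b)) → NS F r z

/-- N2. `z` maps the plane `⟨e₁, e₂⟩` to itself, with the matrix `M` (columns = images), so `z^j` has the matrix `M^j` there; a scalar `c` gives `M^j = c`. -/
def N2_stmt : Prop := ∀ {F V : Type} [Field F] [AddCommGroup V] [Module F V] (r m : ℕ) (σ : F),
  HD F F r m σ → ∀ z : Equiv.Perm V, Lin F z → ∀ e₁ e₂ : V, LinearIndependent F ![e₁, e₂] →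
  ∀ M : Matrix (Fin 2) (Fin 2) F, M.det = 1 → M.trace = 2 + σ →
  z e₁ = M 0 0 • e₁ + M 1 0 • e₂ → z e₂ = M 0 1 • e₁ + M 1 1 • e₂ → NS F r z

/-- AE (assembly in `K × K`, even; uses BF, EX, TL, NK). `L = LA ++ LB`, `LA = List.ofFn (i ↦ (((u (inl i), 0), (u (inr i), 0)), (-1, τ⁻¹)))`, `LB = List.ofFn (i ↦ (((0, w (inl i)), (0, w (inr i))), (1, -τ⁻¹)))`.
`pr LA (a,b) = (a + αb, b)` (TL for the list of all `2k` vectors, with `s = -1/norm`, and EX), `pr LB (a,b) = (a, b + βa)` (`s = 1/norm`). -/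
def AE_stmt : Prop := ∀ {F K : Type} [Field F] [Field K] [Algebra F K] [Finite K]
  [FiniteDimensional F K] (r k : ℕ) (σ α β : K) (τ : F) (u w : Basis (Fin k ⊕ Fin k) F K),
  HD F K r (2 * k) σ → τ ≠ 0 → α ≠ 0 → β ≠ 0 → α * β = σ → Orth (bf F K α) u (nrm' τ) →
  Orth (bf F K β) w (nrm' τ) → ∃ L : List (((K × K) × (K × K)) × (F × F)),
  L.length = 2 * k ∧ PL (B0 F K) τ L ∧ NS F r (pr (B0 F K) L)

/-- AO (assembly in `K × K`, odd; uses BF, EX, TL, NK). `L = LA ++ [mid] ++ LB`, `LA`, `LB` as in AE, `mid = (((u₀,0),(0,w₀)), (-δ⁻¹, δ'⁻¹))`, `u₀ = u (inl ())`. `pr LA * T((u₀,0),-δ⁻¹)` maps `(a,b)` to `(a + αb, b)`,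
`T((0,w₀),δ'⁻¹) * pr LB` maps it to `(a, b + βa)`. `B0 (u₀,0) (0,w₀) = tr(u₀w₀) = 0`, `-(τ (-δ⁻¹) δ'⁻¹) = τ/(δδ')` is a square. -/
def AO_stmt : Prop := ∀ {F K : Type} [Field F] [Field K] [Algebra F K] [Finite K]
  [FiniteDimensional F K] (r k : ℕ) (σ α β : K) (τ δ δ' : F)
  (u w : Basis (Unit ⊕ (Fin k ⊕ Fin k)) F K),
  HD F K r (2 * k + 1) σ → τ ≠ 0 → α ≠ 0 → β ≠ 0 → δ ≠ 0 → δ' ≠ 0 → α * β = σ →
  Orth (bf F K α) u (nrm τ δ) → Orth (bf F K β) w (nrm τ δ') → IsSquare (τ * δ * δ') →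
  Algebra.trace F K (u (.inl ()) * w (.inl ())) = 0 →
  ∃ L : List (((K × K) × (K × K)) × (F × F)),
  L.length = 2 * k + 1 ∧ PL (B0 F K) τ L ∧ NS F r (pr (B0 F K) L)

/-- THE (`m = 2k`; uses BF, HA, HB, ME, AE). A square `σ`. (`Finite K` is in `HD`; `FiniteDimensional F K` follows.) -/
def THE_stmt : Prop := ∀ {F : Type} [Field F] [Finite F] (r k : ℕ) (τ : F), r.Prime → r ≠ 2 →
  Dv (Nat.card F) r (2 * k) → τ ≠ 0 →
  ∃ (W : Type) (_ : AddCommGroup W) (_ : Module F W) (C : LinearMap.BilinForm F W)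
    (L : List ((W × W) × (F × F))), FiniteDimensional F W ∧ finrank F W = 2 * (2 * k) ∧ Alt C ∧
    L.length = 2 * k ∧ PL C τ L ∧ NS F r (pr C L)

/-- THO (`m = 2k+1`, `k ≥ 1`; uses BF, HA, HB, HC, MOA, MOB, AO). Odd characteristic: HA with the class of `τ`, or HC if `q = 3`, `k = 1`, `τ` is not a square; MOA, AO. Characteristic two: HB, MOB, AO. -/
def THO_stmt : Prop := ∀ {F : Type} [Field F] [Finite F] (r k : ℕ) (τ : F), r.Prime → r ≠ 2 →
  1 ≤ k → Dv (Nat.card F) r (2 * k + 1) → τ ≠ 0 →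
  ∃ (W : Type) (_ : AddCommGroup W) (_ : Module F W) (C : LinearMap.BilinForm F W)
    (L : List ((W × W) × (F × F))), FiniteDimensional F W ∧ finrank F W = 2 * (2 * k + 1) ∧ Alt C ∧
    L.length = 2 * k + 1 ∧ PL C τ L ∧ NS F r (pr C L)

/-- THA (uses THE, THO). -/
def THA_stmt : Prop := ∀ {F : Type} [Field F] [Finite F] (r m : ℕ) (τ : F), r.Prime → r ≠ 2 →
  Dv (Nat.card F) r m → 2 ≤ m → τ ≠ 0 →
  ∃ (W : Type) (_ : AddCommGroup W) (_ : Module F W) (C : LinearMap.BilinForm F W)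
    (L : List ((W × W) × (F × F))), FiniteDimensional F W ∧ finrank F W = 2 * m ∧ Alt C ∧
    L.length = m ∧ PL C τ L ∧ NS F r (pr C L)

/-- TR (transport along an isometric embedding). `tv B (ι v) a (ι x) = ι (tv C v a x)`, so the products correspond on the image of `ι`, and a scalar power on `V` gives a
scalar power on `W`. -/
def TR_stmt : Prop := ∀ {F V W : Type} [Field F] [AddCommGroup V] [Module F V]
  [AddCommGroup W] [Module F W] (B : LinearMap.BilinForm F V) (C : LinearMap.BilinForm F W),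
  Alt B → Alt C → ∀ ι : W →ₗ[F] V, Function.Injective ι → (∀ x y, B (ι x) (ι y) = C x y) →
  ∀ (r : ℕ) (τ : F) (L : List ((W × W) × (F × F))), PL C τ L → NS F r (pr C L) →
    PL B τ (L.map fun t => ((ι t.1.1, ι t.1.2), t.2)) ∧
    NS F r (pr B (L.map fun t => ((ι t.1.1, ι t.1.2), t.2)))

/-! ## F. Conclusions for semisimilarities -/

/-- MB (`m ≥ 2`, blocks; uses THA, EM, TR). Induction on the list with `Gen.mul` (`Blk` for each pair of the list). -/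
def MB_stmt : Prop := ∀ {F V : Type} [Field F] [Finite F] [AddCommGroup V] [Module F V]
  [FiniteDimensional F V] (B : LinearMap.BilinForm F V), Alt B → ∀ (y : Equiv.Perm V)
  (ν : F), ν ≠ 0 → Blk B y ν → ∀ r m : ℕ, r.Prime → r ≠ 2 →
  Dv (Nat.card F) r m → 2 ≤ m → 2 * m ≤ finrank F V →
  ∃ z ∈ SpG B, Gen B y (2 * m) z ∧ NS F r z

/-- M1 (`m = 1`, `y` linear with `B (y v) v ≠ 0` for some `v`; uses H1, N2). H1: `σ` with `σ ν` a square. `c = B (y v) v`,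
`a² = σ ν / c²`, `z = [y, T(v,a)] = T(y v, ν⁻¹ a) T(v, -a)`: in the basis `v, y v` of their span the matrix is `!![1, -ac; -ν⁻¹ac, 1 + ν⁻¹a²c²]`, of determinant 1 and trace `2 + ν⁻¹ a² c² = 2 + σ`. -/
def M1_stmt : Prop := ∀ {F V : Type} [Field F] [Finite F] [AddCommGroup V] [Module F V]
  (B : LinearMap.BilinForm F V), Alt B → ∀ (y : Equiv.Perm V) (ν : F),
  Sim B y (RingEquiv.refl F) ν → ∀ v, B (y v) v ≠ 0 → ∀ r : ℕ, r.Prime → r ≠ 2 →
  Dv (Nat.card F) r 1 → ∃ z ∈ SpG B, Gen B y 2 z ∧ NS F r z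

/-- M2 (`m = 1`, plane `P`; uses H1, N2). `σ` as in H1 (any class). `t = T(v, a) T(w, b)` with `a b (B v w)² = -σ`: trace `2 - a b (B v w)² = 2 + σ` on `P = ⟨v, w⟩`. `z = [y, t] = (y t y⁻¹) t⁻¹`, `y t y⁻¹ = T(y v, ..) T(y w, ..)` is the
identity on `P` (`B x (y v) = B x (y w) = 0` for `x ∈ P`), so `z = t⁻¹` on `P` (trace `2 + σ`, determinant one; `t⁻¹ = T(w,-b) T(v,-a)`). -/
def M2_stmt : Prop := ∀ {F V : Type} [Field F] [Finite F] [AddCommGroup V] [Module F V]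
  (B : LinearMap.BilinForm F V), Alt B → ∀ (y : Equiv.Perm V) (ψ : F ≃+* F) (ν : F),
  Sim B y ψ ν → Pln B y → ∀ r : ℕ, r.Prime → r ≠ 2 →
  Dv (Nat.card F) r 1 → ∃ z ∈ SpG B, Gen B y 2 z ∧ NS F r z

/-- RP (`r ∣ q`; uses DU). `z = T(x,s)T(x',s')` with `x, x'` independent, orthogonal (they exist: `dim V ≥ 3`), `s = 1`, `s' = -ν⁻¹`: `z^j = T(x,js)T(x',js')`; if it is the scalar `c` then `c = 1` (`z x = x`), and
for `v` with `B v x = 1`, `B v x' = 0` (DU) one gets `j s = 0` in `F`, `p ∣ j`, `r = p`. -/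
def RP_stmt : Prop := ∀ {F V : Type} [Field F] [Finite F] [AddCommGroup V] [Module F V]
  [FiniteDimensional F V] (B : LinearMap.BilinForm F V), Alt B → 3 ≤ finrank F V →
  ∀ (y : Equiv.Perm V) (ν : F), ν ≠ 0 → Blk B y ν → ∀ r : ℕ, r.Prime → r ∣ Nat.card F →
  ∃ z ∈ SpG B, Gen B y 2 z ∧ NS F r z

/-- MLIN (linear `y`; uses BA, BB, PS, MB, M1, M2, RP). `Blk B y ν` by BA (if there is `v` with `B (y v) v = 0`, `y v` not a
multiple of `v`) or BB; RP; `m ≥ 2`: MB; `m = 1`: M1 if some `B (y v) v ≠ 0`, otherwise PS, M2. -/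
def MLIN_stmt : Prop := ∀ {F V : Type} [Field F] [Finite F] [AddCommGroup V] [Module F V]
  [FiniteDimensional F V] (B : LinearMap.BilinForm F V), Alt B → ∀ n, 3 ≤ n →
  finrank F V = 2 * n → ∀ (y : Equiv.Perm V) (ν : F), Sim B y (RingEquiv.refl F) ν →
  NSc F y → ∀ r : ℕ, r.Prime → r ≠ 2 → (r ∣ Nat.card F → ∃ z ∈ SpG B, Gen B y 2 z ∧ NS F r z) ∧
  ∀ m, m ≤ n → Dv (Nat.card F) r m → ∃ z ∈ SpG B, Gen B y (2 * m) z ∧ NS F r z

/-- MSEM (semilinear `y`; uses DSA, DSV, DSP, BA, MB, M2, RP). DSA: `Trip`; DSV, BA: `Blk`; DSP: `Pln`; RP, MB, M2. -/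
def MSEM_stmt : Prop := ∀ {F V : Type} [Field F] [Finite F] [AddCommGroup V] [Module F V]
  [FiniteDimensional F V] (B : LinearMap.BilinForm F V), Alt B → ∀ n, 3 ≤ n →
  finrank F V = 2 * n → ∀ (y : Equiv.Perm V) (ψ : F ≃+* F) (ν : F), Sim B y ψ ν →
  (∃ x, ψ x ≠ x) → ∀ (l : ℕ) (κ : F), l.Prime → κ ≠ 0 → (∀ v, (y ^ l) v = κ • v) →
  ∀ r : ℕ, r.Prime → r ≠ 2 → (r ∣ Nat.card F → ∃ z ∈ SpG B, Gen B y 2 z ∧ NS F r z) ∧
  ∀ m, m ≤ n → Dv (Nat.card F) r m → ∃ z ∈ SpG B, Gen B y (2 * m) z ∧ NS F r z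

/-- MAIN (uses PO, MLIN, MSEM). By PO and `Gen.of_pow` we may assume `y^l` scalar, `l` prime. -/
def MAIN_stmt : Prop := ∀ {F V : Type} [Field F] [Finite F] [AddCommGroup V] [Module F V]
  [FiniteDimensional F V] (B : LinearMap.BilinForm F V), Alt B → ∀ n, 3 ≤ n →
  finrank F V = 2 * n → ∀ (y : Equiv.Perm V) (ψ : F ≃+* F) (ν : F), Sim B y ψ ν → NSc F y →
  ∀ r : ℕ, r.Prime → r ≠ 2 → (r ∣ Nat.card F → ∃ z ∈ SpG B, Gen B y 2 z ∧ NS F r z) ∧
  ∀ m, m ≤ n → Dv (Nat.card F) r m → ∃ z ∈ SpG B, Gen B y (2 * m) z ∧ NS F r z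

/-- PD. `U = {v | g v = v}`, `W = {g v - v}`. `B (g v - v) u = 0` for `u ∈ U`; `V = U + W` (`r v = ∑ g^i v + (r v - ∑ g^i v)`, `r ≠ 0` in `F`), so `U ∩ W = 0` (a vector of `U ∩ W` is orthogonal to `U` and
to `W ⊥ U`) and `W` is nondegenerate, of even dimension `2i` (SB), `i ≥ 1` as `g ≠ 1`. `g` acts on `W - {0}` without fixed points, so all orbits have `r` elements: `r ∣ q^(2i) - 1`. (`card_modEq_card_fixedPoints`.) Uses SB. -/
def PD_stmt : Prop := ∀ {F V : Type} [Field F] [Finite F] [AddCommGroup V] [Module F V]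
  [FiniteDimensional F V] (B : LinearMap.BilinForm F V), Alt B → ∀ g ∈ SpG B, ∀ r : ℕ,
  r.Prime → ¬ r ∣ Nat.card F → g ^ r = 1 → g ≠ 1 → ∃ (U : Submodule F V) (i : ℕ),
  (∀ v, v ∈ U ↔ g v = v) ∧ 1 ≤ i ∧ finrank F U + 2 * i = finrank F V ∧
  r ∣ Nat.card F ^ (2 * i) - 1

/-- LB (lower bound; uses PD). `g i * T(w,a) * (g i)⁻¹ = T(g_i w, a)`; the group `H` fixes `⋂ (g_i w)^⊥`, of codimension at most `k`. Cauchy: an element of order `r` in `H` (`H ⊂ SpG B`); PD: `2i ≤ k`. -/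
def LB_stmt : Prop := ∀ {F V : Type} [Field F] [Finite F] [AddCommGroup V] [Module F V]
  [FiniteDimensional F V] (B : LinearMap.BilinForm F V), Alt B → ∀ (w : V) (a : F) (k : ℕ)
  (g : Fin k → Equiv.Perm V), (∀ i, g i ∈ SpG B) → ∀ r : ℕ, r.Prime → ¬ r ∣ Nat.card F →
  r ∣ Nat.card (Subgroup.closure (Set.range fun i => g i * tv B w a * (g i)⁻¹)) →
  ∃ i, 1 ≤ i ∧ 2 * i ≤ k ∧ r ∣ Nat.card F ^ (2 * i) - 1

/-! ## G. Matrices, the projective group -/

/-- MXA. `BJ` is alternating and nondegenerate (`J` is invertible, `Jᵀ = -J` with zero diagonal), `finrank = 2n`. -/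
def MXA_stmt : Prop := ∀ (n : ℕ) (F : Type) [Field F],
  Alt (BJ n F) ∧ finrank F (Fin n ⊕ Fin n → F) = 2 * n

/-- MXP. A symplectic matrix `g` acts by `v ↦ g *ᵥ v`; `gᵀ J g = J` (`SymplecticGroup.mem_iff'`). The map `φ` is an injective homomorphism onto `SpG` (`LinearMap.toMatrix'`). -/
def MXP_stmt : Prop := ∀ (n : ℕ) (F : Type) [Field F],
  ∃ φ : Matrix.symplecticGroup (Fin n) F →* Equiv.Perm (Fin n ⊕ Fin n → F),
    Function.Injective φ ∧ φ.range = SpG (BJ n F) ∧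
    ∀ g v, φ g v = (g : Matrix (Fin n ⊕ Fin n) (Fin n ⊕ Fin n) F).mulVec v

/-- MXY. `y(v) = A *ᵥ (ψ ∘ v)`. `ν ≠ 0` because `A` is invertible and `J ≠ 0` (`n ≥ 1`); `A J Aᵀ = ν J` implies `Aᵀ J A = ν J` (`J² = -1`: `J Aᵀ J A = -ν`, as a left inverse is a right inverse). `B (y u) (y v) = ν ψ(B u v)` as `ψ` fixes the entries of `J`
(`Matrix.map_J`). `h = A ψ(g) A⁻¹` is symplectic. -/
def MXY_stmt : Prop := ∀ (n : ℕ) (F : Type) [Field F], 1 ≤ n →
  ∀ (A : (Matrix (Fin n ⊕ Fin n) (Fin n ⊕ Fin n) F)ˣ) (ψ : F ≃+* F) (ν : F),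
    (A : Matrix (Fin n ⊕ Fin n) (Fin n ⊕ Fin n) F) * Matrix.J (Fin n) F *
      (A : Matrix (Fin n ⊕ Fin n) (Fin n ⊕ Fin n) F).transpose = ν • Matrix.J (Fin n) F →
    (∃ y : Equiv.Perm (Fin n ⊕ Fin n → F), Sim (BJ n F) y ψ ν ∧
      ∀ v, y v = (A : Matrix (Fin n ⊕ Fin n) (Fin n ⊕ Fin n) F).mulVec (fun i => ψ (v i))) ∧
    ∀ g : Matrix.symplecticGroup (Fin n) F, ∃ h : Matrix.symplecticGroup (Fin n) F,
      (h : Matrix (Fin n ⊕ Fin n) (Fin n ⊕ Fin n) F) =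
        A * (g : Matrix (Fin n ⊕ Fin n) (Fin n ⊕ Fin n) F).map ψ *
          (A⁻¹ : (Matrix (Fin n ⊕ Fin n) (Fin n ⊕ Fin n) F)ˣ)

/-- MX (dictionary; uses MXA, MXP, MXY). `y φ(g) y⁻¹ = φ(A ψ(g) A⁻¹)`: `y (g *ᵥ v) = A *ᵥ (ψ(g) *ᵥ ψ(v)) = (A ψ(g) A⁻¹) *ᵥ (y v)`. -/
def MX_stmt : Prop := ∀ (n : ℕ) (F : Type) [Field F], 1 ≤ n →
  Alt (BJ n F) ∧ finrank F (Fin n ⊕ Fin n → F) = 2 * n ∧
  ∃ φ : Matrix.symplecticGroup (Fin n) F →* Equiv.Perm (Fin n ⊕ Fin n → F),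
    Function.Injective φ ∧ φ.range = SpG (BJ n F) ∧
    (∀ g v, φ g v = (g : Matrix (Fin n ⊕ Fin n) (Fin n ⊕ Fin n) F).mulVec v) ∧
    ∀ (A : (Matrix (Fin n ⊕ Fin n) (Fin n ⊕ Fin n) F)ˣ) (ψ : F ≃+* F) (ν : F),
      (A : Matrix (Fin n ⊕ Fin n) (Fin n ⊕ Fin n) F) * Matrix.J (Fin n) F *
        (A : Matrix (Fin n ⊕ Fin n) (Fin n ⊕ Fin n) F).transpose = ν • Matrix.J (Fin n) F →
      ∃ y : Equiv.Perm (Fin n ⊕ Fin n → F), Sim (BJ n F) y ψ ν ∧
        (∀ v, y v = (A : Matrix (Fin n ⊕ Fin n) (Fin n ⊕ Fin n) F).mulVec (fun i => ψ (v i))) ∧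
        ∀ g : Matrix.symplecticGroup (Fin n) F, ∃ h : Matrix.symplecticGroup (Fin n) F,
          (h : Matrix (Fin n ⊕ Fin n) (Fin n ⊕ Fin n) F) =
            A * (g : Matrix (Fin n ⊕ Fin n) (Fin n ⊕ Fin n) F).map ψ *
              (A⁻¹ : (Matrix (Fin n ⊕ Fin n) (Fin n ⊕ Fin n) F)ˣ) ∧ φ h = y * φ g * y⁻¹

/-- CN (centralisers). `z ∈ SpG B`. If for every `g ∈ SpG B` the commutator `z g z⁻¹ g⁻¹` is a scalar then `z` is a scalar: for `g = T(v,1)`: `T(z v, 1) = c T(v,1)`; `c = 1` (apply both to a nonzero vector orthogonal to `v` and `z v`,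
`dim V ≥ 3`), so `x + B(x,zv) zv = x + B(x,v) v` for all `x`, `z v ∈ F v` for all `v`. -/
def CN_stmt : Prop := ∀ {F V : Type} [Field F] [AddCommGroup V] [Module F V]
  [FiniteDimensional F V] (B : LinearMap.BilinForm F V), Alt B → 3 ≤ finrank F V →
  ∀ z ∈ SpG B, (∀ g ∈ SpG B, ∃ c : F, ∀ v, (z * g * z⁻¹ * g⁻¹) v = c • v) →
  ∃ c : F, ∀ v, z v = c • v

/-- PR (primes dividing the order; uses MX, PD). `r ∣ |PSp|` implies `r ∣ |Sp|`, Cauchy in the image of `φ`, PD. -/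
def PR_stmt : Prop := ∀ (n : ℕ) (F : Type) [Field F] [Finite F] (r : ℕ), 1 ≤ n → r.Prime →
  r ∣ Nat.card (PSp n F) → r ∣ Nat.card F ∨ ∃ m, 1 ≤ m ∧ m ≤ n ∧ r ∣ Nat.card F ^ (2 * m) - 1

/-- AD (the action of the normaliser; pure group theory). `u` in the normaliser `N` of `φ(G)` induces the automorphism `g ↦ φ⁻¹(u φ(g) u⁻¹)` of `G`, which maps the centre onto itself, hence an automorphism of `G / Z(G)` (`QuotientGroup.congr`); this is a homomorphism. -/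
def AD_stmt : Prop := ∀ {G P : Type} [Group G] [Group P] (φ : G →* P), Function.Injective φ →
  ∃ (N : Subgroup P) (Ad : N →* MulAut (G ⧸ Subgroup.center G)),
    (∀ u : P, (∀ g : G, ∃ h : G, φ h = u * φ g * u⁻¹) → (∀ g : G, ∃ h : G, φ h = u⁻¹ * φ g * u) →
      u ∈ N) ∧
    ∀ (u : N) (g h : G), φ h = (u : P) * φ g * (u : P)⁻¹ →
      Ad u (QuotientGroup.mk g) = QuotientGroup.mk h

/-- F1 (from `Gen`, `NS` to `GenDvd`; uses MX, CN, AD). `φ` and `y` as in MX (the `y` there is the given one, by the formula). AD: `N`, `Ad`. `SpG = range φ ≤ N`, `y ∈ N` (for `u = y⁻¹`: `y` maps the finite set `φ(Sp)` injectively into itself by conjugation, or use `Sim.conj_mem` and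
`Sim.inv_add` ..), the scalars `sc c` are in `N`. `Ad y = x` (hypothesis on `x` and MX), `Ad (φ g) = MulAut.conj (mk g)`, `Ad (sc c) = 1`. Let `Gen B y k z` with `g i = φ (γ i)`: `Ad z = Ad (sc c * z)` is in the closure `H` of the
`conj (mk γ_i) x (conj (mk γ_i))⁻¹`. Let `N' = Nat.card H` (`MulAut (PSp n F)` is finite): `(Ad z)^N' = 1`. For `g ∈ Sp` the commutator `[z^N', φ g]` is `φ` of a central element of `Sp`, and these are scalars (CN), so
`z^N'` is a scalar by CN, and `NS` gives `r ∣ N'`. First part: if `y v = c • v` for all `v`, then `ψ = 1` (`ψ(a) c v = y (a v) = a c v`, `c ≠ 0`) and `A = c`, so `x = 1`. -/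
def F1_stmt : Prop := ∀ (n : ℕ) (F : Type) [Field F] [Finite F], 3 ≤ n → ∀ x : MulAut (PSp n F),
  ∀ (A : (Matrix (Fin n ⊕ Fin n) (Fin n ⊕ Fin n) F)ˣ) (ψ : F ≃+* F) (ν : F),
  (A : Matrix (Fin n ⊕ Fin n) (Fin n ⊕ Fin n) F) * Matrix.J (Fin n) F *
    (A : Matrix (Fin n ⊕ Fin n) (Fin n ⊕ Fin n) F).transpose = ν • Matrix.J (Fin n) F →
  (∀ g h : Matrix.symplecticGroup (Fin n) F,
      (h : Matrix (Fin n ⊕ Fin n) (Fin n ⊕ Fin n) F) =
        A * (g : Matrix (Fin n ⊕ Fin n) (Fin n ⊕ Fin n) F).map ψ *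
          (A⁻¹ : (Matrix (Fin n ⊕ Fin n) (Fin n ⊕ Fin n) F)ˣ) →
      x (QuotientGroup.mk g) = QuotientGroup.mk h) →
  ∀ y : Equiv.Perm (Fin n ⊕ Fin n → F), Sim (BJ n F) y ψ ν →
  (∀ v, y v = (A : Matrix (Fin n ⊕ Fin n) (Fin n ⊕ Fin n) F).mulVec (fun i => ψ (v i))) →
  (x ≠ 1 → NSc F y) ∧ ∀ (r k : ℕ) (z : Equiv.Perm (Fin n ⊕ Fin n → F)), z ∈ SpG (BJ n F) →
    Gen (BJ n F) y k z → NS F r z → GenDvd r k x

/-- FU (upper bounds; uses MAIN, MX, F1, PR). For the last part: PR gives `r ∣ q` (then `2 ≤ r - 1`) or `r ∣ q^(2m) - 1` with `1 ≤ m ≤ n`; let `m₀` be minimal with this property; the order of `q²` modulo `r` divides `(r-1)/2`, so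
`2 m₀ ≤ r - 1`. `GenDvd r k x`, `1 ≤ k ≤ l` give `GenDvd r l x` (repeat a conjugate). -/
def FU_stmt : Prop := ∀ (n : ℕ) (F : Type) [Field F] [Finite F], 3 ≤ n → ∀ x : MulAut (PSp n F),
  IsPGammaSp n F x → x ≠ 1 → ∀ r : ℕ, r.Prime → r ≠ 2 → (r ∣ Nat.card F → GenDvd r 2 x) ∧
  (∀ m, 1 ≤ m → m ≤ n → r ∣ Nat.card F ^ (2 * m) - 1 → GenDvd r (2 * m) x) ∧
  (r ∣ Nat.card (PSp n F) → GenDvd r (r - 1) x)

/-- FL (lower bound for transvections; uses MX, LB). `g ↦ MulAut.conj (mk g)` is a homomorphism from `Sp`, it maps the group generated by the `g̃_i t g̃_i⁻¹` (`g̃_i` in `Sp` over `g i`) onto the group in `GenDvd`; so `r` divides the order of the former (finite: a subgroup of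
`Sp`), and of its image under `φ`. LB. -/
def FL_stmt : Prop := ∀ (n : ℕ) (F : Type) [Field F] [Finite F], 1 ≤ n →
  ∀ (t : Matrix.symplecticGroup (Fin n) F) (w : Fin n ⊕ Fin n → F) (a : F),
  (∀ v, (t : Matrix (Fin n ⊕ Fin n) (Fin n ⊕ Fin n) F).mulVec v = tv (BJ n F) w a v) →
  ∀ (k r : ℕ), r.Prime → ¬ r ∣ Nat.card F →
  GenDvd r k (MulAut.conj (QuotientGroup.mk t : PSp n F)) →
  ∃ i, 1 ≤ i ∧ 2 * i ≤ k ∧ r ∣ Nat.card F ^ (2 * i) - 1

/-- FO (a transvection; uses MX, CN). `t = T(w,1)`, `w ≠ 0`. `MulAut.conj (mk t)` is induced by `A = t`, `ψ = 1`, `ν = 1`. `t^p = 1`; `MulAut.conj (mk t) ≠ 1`: otherwise `t` commutes with `Sp` modulo the centre, whose elements are scalars (CN), and `t` would be a scalar by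
CN; but `t w = w`, `t ≠ 1`. So the order is `p` (a prime). -/
def FO_stmt : Prop := ∀ (n : ℕ) (F : Type) [Field F] [Finite F], 3 ≤ n →
  ∃ (t : Matrix.symplecticGroup (Fin n) F) (w : Fin n ⊕ Fin n → F) (a : F),
  (∀ v, (t : Matrix (Fin n ⊕ Fin n) (Fin n ⊕ Fin n) F).mulVec v = tv (BJ n F) w a v) ∧
  IsPGammaSp n F (MulAut.conj (QuotientGroup.mk t : PSp n F)) ∧
  orderOf (MulAut.conj (QuotientGroup.mk t : PSp n F)) = ringChar F

/-- BE (pure group theory). `Inn S` is normal, `x conj(s) x⁻¹ = conj(x s)`; every element of `⟨Inn S, x⟩` is `conj(s) x^i` (`Subgroup.mem_sup_of_normal_left` or so), and `g x g⁻¹ = conj(s) x conj(s)⁻¹`. -/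
def BE_stmt : Prop := ∀ {S : Type} [Group S] (r : ℕ) (x : MulAut S) (k : ℕ),
  k ∈ CSet r x ↔ 1 ≤ k ∧ GenDvd r k x

/-- FIN (the result; uses FU, FL, FO, BE, PR). First part: `CSet r x` is nonempty by FU, take its least element. Second part: the transvection of FO: `2m ∈ CSet` by FU (`m ≤ n` by PR), FL gives the minimality. -/
def FIN_stmt : Prop := ∀ (n : ℕ) (F : Type) [Field F] [Finite F], 3 ≤ n →
  (∀ x : MulAut (PSp n F), IsPGammaSp n F x → x ≠ 1 → ∀ r : ℕ, r.Prime → r ≠ 2 →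
    r ∣ Nat.card (PSp n F) → ∃ β, IsLeast (CSet r x) β ∧ β ≤ r - 1 ∧ (r ∣ Nat.card F → β ≤ 2) ∧
      ∀ m, 1 ≤ m → m ≤ n → r ∣ Nat.card F ^ (2 * m) - 1 → β ≤ 2 * m) ∧
  ∃ x : MulAut (PSp n F), IsPGammaSp n F x ∧ orderOf x = ringChar F ∧
    ∀ r : ℕ, r.Prime → r ≠ 2 → r ∣ Nat.card (PSp n F) → ¬ r ∣ Nat.card F →
      ∀ m, IsLeast {m | 1 ≤ m ∧ r ∣ Nat.card F ^ (2 * m) - 1} m → IsLeast (CSet r x) (2 * m)

end

end Pool.Agent.GS
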