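import Pool.Agent.helper22.GS.Spec

/-!
# Project gs (MP_561ff4_al), second part: the case `n = 2` (all symplectic groups)

The statements of Spec.lean with `3 ≤ n` are extended to `2 ≤ n`. Only the semilinear part changes (two hyperbolic pairs
instead of three). Same rules: file `Pool/Agent/<seat>/GS/XX.lean`, `import Pool.Agent.helper22.GS.SpecT`, `namespace Pool.Agent.GS`,
`open Module`, `theorem XX (h : YY_stmt) ... : XX_stmt`; hypotheses: any earlier statements of Spec.lean and of this file.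
-/

set_option autoImplicit false
set_option linter.unusedVariables false

namespace Pool.Agent.GS

open Module

noncomputable section

/-- Two hyperbolic pairs fixed by a multiple of `y`. -/
def Dup {F V : Type} [Field F] [AddCommGroup V] [Module F V] (B : LinearMap.BilinForm F V)
    (y : Equiv.Perm V) : Prop :=
  ∃ (lam μ : F) (e f : Fin 2 → V), lam ≠ 0 ∧ μ ≠ 0 ∧
    (∀ i, lam • y (e i) = e i ∧ lam • y (f i) = f i) ∧
    ∀ i j, B (e i) (e j) = 0 ∧ B (f i) (f j) = 0 ∧ B (e i) (f j) = if i = j then μ else 0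

/-- LCT (uses LE, CW, DU). As LC (copy Pool/Agent/helper3/GS/LC.lean), which covers `n ≥ 3` and every case where `E` is not totally isotropic. So let `n = 2`, `E` totally isotropic: `dim E ≥ 2` (CW) and `≤ 2` (DU), so `E = E^⊥` (dimensions). Suppose `ν ≠ lam²`. For
`e ∈ E`: `lam B (y u) e = B (y u) (y e) = ν B u e`, so `y u - (ν/lam) u ∈ E^⊥ = E` for all `u`: the linear map `y - ν/lam : V → E` has a kernel of dimension at least `4 - 2 > 0`; take `e' ≠ 0` with `y e' = (ν/lam) e'`. Then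
`B (y e') e' = 0`, so `y e' = lam e'` (LE), so `ν = lam²`. -/
def LCT_stmt : Prop := ∀ {F V : Type} [Field F] [Finite F] [AddCommGroup V] [Module F V]
  [FiniteDimensional F V] (B : LinearMap.BilinForm F V), Alt B → ∀ n, 2 ≤ n →
  finrank F V = 2 * n → ∀ (y : Equiv.Perm V) (ν : F), Sim B y (RingEquiv.refl F) ν →
  (∀ v, B (y v) v = 0 → ∃ c : F, y v = c • v) → ∃ (lam : F) (E : Submodule F V), lam ≠ 0 ∧
  ν = lam ^ 2 ∧ (∀ v, v ∈ E ↔ y v = lam • v) ∧ (∀ v, B (y v) v = 0 ↔ v ∈ E) ∧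
  finrank F V ≤ finrank F E + 2

/-- BBT (uses LCT, BC, WT). As BB (copy Pool/Agent/helper23/GS/BB.lean, with LCT for LC; `dim E ≥ 2` is enough for `ρ`). -/
def BBT_stmt : Prop := ∀ {F V : Type} [Field F] [Finite F] [AddCommGroup V] [Module F V]
  [FiniteDimensional F V] (B : LinearMap.BilinForm F V), Alt B → ∀ n, 2 ≤ n →
  finrank F V = 2 * n → ∀ (y : Equiv.Perm V) (ν : F), Sim B y (RingEquiv.refl F) ν → NSc F y →
  (∀ v, B (y v) v = 0 → ∃ c : F, y v = c • v) → Blk B y ν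

/-- DSX (two hyperbolic pairs of fixed vectors; uses DS2, DSS). As DS3 (copy Pool/Agent/helper61/GS/DS3.lean), DSS for `k = 0, 1`. -/
def DSX_stmt : Prop := ∀ {F V : Type} [Field F] [AddCommGroup V] [Module F V]
  [FiniteDimensional F V] (B : LinearMap.BilinForm F V), Alt B → ∀ n, 2 ≤ n →
  finrank F V = 2 * n → ∀ (y : Equiv.Perm V) (ψ : F ≃+* F) (ν : F), Sim B y ψ ν →
  ∀ l : ℕ, l.Prime → (∃ x, ψ x ≠ x) → (∀ x, (⇑ψ)^[l] x = x) → (∀ v, (y ^ l) v = v) →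
  ∃ (μ : F) (e f : Fin 2 → V), μ ≠ 0 ∧ (∀ i, y (e i) = e i ∧ y (f i) = f i) ∧
  ∀ i j, B (e i) (e j) = 0 ∧ B (f i) (f j) = 0 ∧ B (e i) (f j) = if i = j then μ else 0

/-- DSB (uses DS1, DSX). As DSA (copy Pool/Agent/helper63/GS/DSA.lean). -/
def DSB_stmt : Prop := ∀ {F V : Type} [Field F] [Finite F] [AddCommGroup V] [Module F V]
  [FiniteDimensional F V] (B : LinearMap.BilinForm F V), Alt B → ∀ n, 2 ≤ n →
  finrank F V = 2 * n → ∀ (y : Equiv.Perm V) (ψ : F ≃+* F) (ν : F), Sim B y ψ ν →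
  (∃ x, ψ x ≠ x) → ∀ (l : ℕ) (κ : F), l.Prime → κ ≠ 0 → (∀ v, (y ^ l) v = κ • v) →
  Dup B y ∧ ∀ x, (⇑ψ)^[l] x = x

/-- DSW. As DSV (copy Pool/Agent/helper3/GS/DSV.lean): `v = e_0 + κ e_1`. -/
def DSW_stmt : Prop := ∀ {F V : Type} [Field F] [AddCommGroup V] [Module F V]
  (B : LinearMap.BilinForm F V), Alt B → ∀ (y : Equiv.Perm V) (ψ : F ≃+* F) (ν : F),
  Sim B y ψ ν → (∃ x, ψ x ≠ x) → Dup B y → ∃ v, B (y v) v = 0 ∧ ∀ c : F, y v ≠ c • v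

/-- DSQ (the plane, `ψ² = 1`). `κ` with `ψ κ ≠ κ`, `X = (1, κ)`, `ψ X = (1, ψ κ)` are independent, `X' ∈ F²` with `X·X' = 1`, `ψ(X)·X' = 0`; `v = ∑ X_i e_i`, `w = ∑ X'_i f_i`: `B v w = μ`, `lam y v = ∑ ψ(X_i) e_i`, `lam y w = ∑ ψ(X'_i) f_i`,
`B (y v) w = 0`, `B v (y w) = lam⁻¹ μ X·ψ(X') = lam⁻¹ μ ψ(ψ(X)·X') = 0` (`ψ² = 1`). Compare Pool/Agent/helper62/GS/DSP.lean. -/
def DSQ_stmt : Prop := ∀ {F V : Type} [Field F] [AddCommGroup V] [Module F V]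
  (B : LinearMap.BilinForm F V), Alt B → ∀ (y : Equiv.Perm V) (ψ : F ≃+* F) (ν : F),
  Sim B y ψ ν → (∃ x, ψ x ≠ x) → (∀ x, ψ (ψ x) = x) → Dup B y → Pln B y

/-- DSC (`B (y v) v` takes all values, `l` odd). `κ` with `ψ κ ≠ κ`. `v = x e_0 + f_0 + z e_1 + κ f_1`: `lam B (y v) v = μ ((ψ x - x) + (κ ψ z - ψ(κ) z))`. It is enough that the additive subgroup
`A = {(ψ x - x) + (κ ψ z - ψ(κ) z)}` is `F`. `F₀` = fixed field of `ψ`, `Tr = ∑_{i<l} ψ^i`, the `F₀`-bilinear form `Tr(a b)` on `F` is nondegenerate and `Tr ∘ ψ = Tr` (`Algebra.trace`, or directly: independence of the characters `ψ^i`). `A` is an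
`F₀`-subspace; if `A ≠ F` there is `a ≠ 0` with `Tr(a A) = 0` (nondegeneracy). `Tr(a (ψ x - x)) = Tr((ψ⁻¹ a - a) x)`, so `ψ a = a`, and then `Tr(a (κ ψ z - ψ(κ) z)) = Tr(a (ψ⁻¹ κ - ψ κ) z)`, so `ψ⁻¹ κ = ψ κ`, `ψ² κ = κ`; `l` is odd and `ψ^l = 1`, so `ψ κ = κ`, a
contradiction. Alternative without the trace: `x ↦ ψ x - x` is `F₀`-linear with kernel `F₀`; count. -/
def DSC_stmt : Prop := ∀ {F V : Type} [Field F] [Finite F] [AddCommGroup V] [Module F V]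
  (B : LinearMap.BilinForm F V), Alt B → ∀ (y : Equiv.Perm V) (ψ : F ≃+* F) (ν : F),
  Sim B y ψ ν → (∃ x, ψ x ≠ x) → ∀ l : ℕ, l.Prime → l ≠ 2 → (∀ x, (⇑ψ)^[l] x = x) → Dup B y →
  ∀ c : F, ∃ v, B (y v) v = c

/-- MS1 (`m = 1`, `B (y v) v` takes all values; uses H1, N2). H1: `σ` with `σ ν = c²`; `v` with `B (y v) v = c` (`≠ 0`). `z = [y, T(v,1)] = T(y v, ν⁻¹) T(v, -1)` (`ψ 1 = 1`): in the basis `v, y v` of their span the matrix is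
`!![1, -c; -ν⁻¹c, 1 + ν⁻¹c²]`, of determinant 1 and trace `2 + ν⁻¹ c² = 2 + σ`. As M1 (Pool/Agent/helper76/GS/M1.lean) with `a = 1`. -/
def MS1_stmt : Prop := ∀ {F V : Type} [Field F] [Finite F] [AddCommGroup V] [Module F V]
  (B : LinearMap.BilinForm F V), Alt B → ∀ (y : Equiv.Perm V) (ψ : F ≃+* F) (ν : F),
  Sim B y ψ ν → (∀ c : F, ∃ v, B (y v) v = c) → ∀ r : ℕ, r.Prime → r ≠ 2 →
  Dv (Nat.card F) r 1 → ∃ z ∈ SpG B, Gen B y 2 z ∧ NS F r z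

/-- MLT (uses BA, BBT, PS, MB, M1, M2, RP). As MLIN (copy Pool/Agent/helper11/GS/MLIN.lean). -/
def MLT_stmt : Prop := ∀ {F V : Type} [Field F] [Finite F] [AddCommGroup V] [Module F V]
  [FiniteDimensional F V] (B : LinearMap.BilinForm F V), Alt B → ∀ n, 2 ≤ n →
  finrank F V = 2 * n → ∀ (y : Equiv.Perm V) (ν : F), Sim B y (RingEquiv.refl F) ν →
  NSc F y → ∀ r : ℕ, r.Prime → r ≠ 2 → (r ∣ Nat.card F → ∃ z ∈ SpG B, Gen B y 2 z ∧ NS F r z) ∧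
  ∀ m, m ≤ n → Dv (Nat.card F) r m → ∃ z ∈ SpG B, Gen B y (2 * m) z ∧ NS F r z

/-- MST (uses DSB, DSW, DSQ, DSC, BA, MB, M2, MS1, RP). As MSEM (Pool/Agent/helper67/GS/MSEM.lean): DSB: `Dup`; DSW, BA: `Blk`; RP; `m ≥ 2`: MB; `m = 1`, `l = 2`: DSQ, M2; `m = 1`, `l ≠ 2`: DSC, MS1. -/
def MST_stmt : Prop := ∀ {F V : Type} [Field F] [Finite F] [AddCommGroup V] [Module F V]
  [FiniteDimensional F V] (B : LinearMap.BilinForm F V), Alt B → ∀ n, 2 ≤ n →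
  finrank F V = 2 * n → ∀ (y : Equiv.Perm V) (ψ : F ≃+* F) (ν : F), Sim B y ψ ν →
  (∃ x, ψ x ≠ x) → ∀ (l : ℕ) (κ : F), l.Prime → κ ≠ 0 → (∀ v, (y ^ l) v = κ • v) →
  ∀ r : ℕ, r.Prime → r ≠ 2 → (r ∣ Nat.card F → ∃ z ∈ SpG B, Gen B y 2 z ∧ NS F r z) ∧
  ∀ m, m ≤ n → Dv (Nat.card F) r m → ∃ z ∈ SpG B, Gen B y (2 * m) z ∧ NS F r z

/-- MAT (uses PO, MLT, MST). As MAIN (copy Pool/Agent/helper95/GS/MAIN.lean). -/
def MAT_stmt : Prop := ∀ {F V : Type} [Field F] [Finite F] [AddCommGroup V] [Module F V]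
  [FiniteDimensional F V] (B : LinearMap.BilinForm F V), Alt B → ∀ n, 2 ≤ n →
  finrank F V = 2 * n → ∀ (y : Equiv.Perm V) (ψ : F ≃+* F) (ν : F), Sim B y ψ ν → NSc F y →
  ∀ r : ℕ, r.Prime → r ≠ 2 → (r ∣ Nat.card F → ∃ z ∈ SpG B, Gen B y 2 z ∧ NS F r z) ∧
  ∀ m, m ≤ n → Dv (Nat.card F) r m → ∃ z ∈ SpG B, Gen B y (2 * m) z ∧ NS F r z

/-- F1T (uses MX, CN, AD). As F1 (copy Pool/Agent/helper72/GS/F1.lean; `2n ≥ 3`). -/
def F1T_stmt : Prop := ∀ (n : ℕ) (F : Type) [Field F] [Finite F], 2 ≤ n → ∀ x : MulAut (PSp n F),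
  ∀ (A : (Matrix (Fin n ⊕ Fin n) (Fin n ⊕ Fin n) F)ˣ) (ψ : F ≃+* F) (ν : F),
  (A : Matrix (Fin n ⊕ Fin n) (Fin n ⊕ Fin n) F) * Matrix.J (Fin n) F *
    (A : Matrix (Fin n ⊕ Fin n) (Fin n ⊕ Fin n) F).transpose = ν • Matrix.J (Fin n) F →
  (∀ g h : Matrix.symplecticGroup (Fin n) F,
      (h : Matrix (Fin n ⊕ Fin n) (Fin n ⊕ Fin n) F) =
        A * (g : Matrix (Fin n ⊕ Fin n) (Fin n ⊕ Fin n) F).map ψ *
          (A⁻¹ : (Matrix (Fin n ⊕ Fin n) (Fin n ⊕ Fin n) F)ˣ) →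
      x (QuotientGroup.mk g) = QuotientGroup.mk h) →
  ∀ y : Equiv.Perm (Fin n ⊕ Fin n → F), Sim (BJ n F) y ψ ν →
  (∀ v, y v = (A : Matrix (Fin n ⊕ Fin n) (Fin n ⊕ Fin n) F).mulVec (fun i => ψ (v i))) →
  (x ≠ 1 → NSc F y) ∧ ∀ (r k : ℕ) (z : Equiv.Perm (Fin n ⊕ Fin n → F)), z ∈ SpG (BJ n F) →
    Gen (BJ n F) y k z → NS F r z → GenDvd r k x

/-- FUT (uses MAT, MX, F1T, PR). As FU (copy Pool/Agent/helper27/GS/FU.lean). -/
def FUT_stmt : Prop := ∀ (n : ℕ) (F : Type) [Field F] [Finite F], 2 ≤ n → ∀ x : MulAut (PSp n F),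
  IsPGammaSp n F x → x ≠ 1 → ∀ r : ℕ, r.Prime → r ≠ 2 → (r ∣ Nat.card F → GenDvd r 2 x) ∧
  (∀ m, 1 ≤ m → m ≤ n → r ∣ Nat.card F ^ (2 * m) - 1 → GenDvd r (2 * m) x) ∧
  (r ∣ Nat.card (PSp n F) → GenDvd r (r - 1) x)

/-- FOT (uses MX, CN). As FO (copy Pool/Agent/helper91/GS/FO.lean). -/
def FOT_stmt : Prop := ∀ (n : ℕ) (F : Type) [Field F] [Finite F], 2 ≤ n →
  ∃ (t : Matrix.symplecticGroup (Fin n) F) (w : Fin n ⊕ Fin n → F) (a : F),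
  (∀ v, (t : Matrix (Fin n ⊕ Fin n) (Fin n ⊕ Fin n) F).mulVec v = tv (BJ n F) w a v) ∧
  IsPGammaSp n F (MulAut.conj (QuotientGroup.mk t : PSp n F)) ∧
  orderOf (MulAut.conj (QuotientGroup.mk t : PSp n F)) = ringChar F

/-- FIT (uses FUT, FL, FOT, BE, PR). As FIN (copy Pool/Agent/helper45/GS/FIN.lean). -/
def FIT_stmt : Prop := ∀ (n : ℕ) (F : Type) [Field F] [Finite F], 2 ≤ n →
  (∀ x : MulAut (PSp n F), IsPGammaSp n F x → x ≠ 1 → ∀ r : ℕ, r.Prime → r ≠ 2 →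
    r ∣ Nat.card (PSp n F) → ∃ β, IsLeast (CSet r x) β ∧ β ≤ r - 1 ∧ (r ∣ Nat.card F → β ≤ 2) ∧
      ∀ m, 1 ≤ m → m ≤ n → r ∣ Nat.card F ^ (2 * m) - 1 → β ≤ 2 * m) ∧
  ∃ x : MulAut (PSp n F), IsPGammaSp n F x ∧ orderOf x = ringChar F ∧
    ∀ r : ℕ, r.Prime → r ≠ 2 → r ∣ Nat.card (PSp n F) → ¬ r ∣ Nat.card F →
      ∀ m, IsLeast {m | 1 ≤ m ∧ r ∣ Nat.card F ^ (2 * m) - 1} m → IsLeast (CSet r x) (2 * m)

end

end Pool.Agent.GS
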